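import Pool.Agent.U199.RS.Semi

/-!
# Double covers: the real closures of the sets of rational points
-/

set_option autoImplicit false
set_option linter.unusedSectionVars false

namespace Pool.Agent.U199.RS

open MvPolynomial Pool.Agent.TH729.SQ Pool.Agent.H581R2 Filter Topology

section

variable {ι : Type}

/-- the rational points over a set `S` of parameters -/
def upo (f : MvPolynomial ι ℚ) (S : Set (ι → ℚ)) : Set (Option ι → ℚ) :=
  {u | (fun i => u (some i)) ∈ S ∧ u none ^ 2 = eval (fun i => u (some i)) f}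

theorem upo_closure [Fintype ι] (f : MvPolynomial ι ℚ) {S : Set (ι → ℚ)}
    (hS : ∀ z ∈ S, ∃ w : ℚ, w ^ 2 = eval z f) :
    closure (rl (upo f S)) = {x : Option ι → ℝ | (fun k => x (some k)) ∈ closure (rl S) ∧
      x none ^ 2 = aeval (fun k => x (some k)) f} := by
  have hφc : Continuous fun z : ι → ℝ => (MvPolynomial.aeval z f : ℝ) := continuous_aeval f
  have hsome : Continuous fun u : Option ι → ℝ => fun i : ι => u (some i) := by fun_prop
  have hnone : Continuous fun u : Option ι → ℝ => u none := by fun_prop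
  apply Set.Subset.antisymm
  · refine closure_minimal ?_ ?_
    · rintro _ ⟨u, ⟨hu, hw⟩, rfl⟩
      refine ⟨subset_closure ⟨_, hu, rfl⟩, ?_⟩
      have h1 := Pool.Agent.TH729.SQ.aeval_cast (fun k => u (some k)) f
      show ((u none : ℚ) : ℝ) ^ 2 = MvPolynomial.aeval (fun k : ι => ((u (some k) : ℚ) : ℝ)) f
      rw [h1, ← hw]
      push_cast
      rfl
    · exact (isClosed_closure.preimage hsome).inter (isClosed_eq (hnone.pow 2) (hφc.comp hsome))
  · rintro u ⟨hu1, hu2⟩
    obtain ⟨x, hx, hx'⟩ := mem_closure_iff_seq_limit.1 hu1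
    choose z hz hzx using hx
    choose w hw using fun n => hS (z n) (hz n)
    have hφx : ∀ n, (MvPolynomial.aeval (x n) f : ℝ) = (w n : ℝ) ^ 2 := by
      intro n
      rw [hzx n, Pool.Agent.TH729.SQ.aeval_cast, ← hw n]
      push_cast
      rfl
    have hsq : ∀ n, Real.sqrt (MvPolynomial.aeval (x n) f) = |(w n : ℝ)| := by
      intro n
      rw [hφx, Real.sqrt_sq_eq_abs]
    have hlim : Tendsto (fun n => Real.sqrt (MvPolynomial.aeval (x n) f)) atTop
        (𝓝 (Real.sqrt (MvPolynomial.aeval (fun i => u (some i)) f))) :=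
      ((Real.continuous_sqrt.comp hφc).tendsto _).comp hx'
    have hu2' : Real.sqrt (MvPolynomial.aeval (fun i => u (some i)) f) = |u none| := by
      rw [← hu2, Real.sqrt_sq_eq_abs]
    rw [hu2'] at hlim
    have hpi : ∀ s : ℕ → ℝ, Tendsto s atTop (𝓝 (u none)) →
        Tendsto (fun n => ((fun o => o.elim (s n) (x n)) : Option ι → ℝ)) atTop (𝓝 u) := by
      intro s hs
      rw [tendsto_pi_nhds]
      intro o
      rcases o with _ | i
      · simpa using hs
      · simpa using (tendsto_pi_nhds.1 hx') i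
    rcases le_total 0 (u none) with h0 | h0
    · have h1 := hpi (fun n => Real.sqrt (MvPolynomial.aeval (x n) f)) (by
        rwa [abs_of_nonneg h0] at hlim)
      refine mem_closure_of_tendsto h1 (Eventually.of_forall fun n => ?_)
      refine ⟨fun o => o.elim |w n| (z n), ⟨?_, ?_⟩, ?_⟩
      · simpa using hz n
      · simpa using hw n
      · funext o
        rcases o with _ | i
        · simp [hsq]
        · simp [hzx n]
    · have h1 := hpi (fun n => -Real.sqrt (MvPolynomial.aeval (x n) f)) (by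
        have := hlim.neg
        rwa [abs_of_nonpos h0, neg_neg] at this)
      refine mem_closure_of_tendsto h1 (Eventually.of_forall fun n => ?_)
      refine ⟨fun o => o.elim (-|w n|) (z n), ⟨?_, ?_⟩, ?_⟩
      · simpa using hz n
      · simpa using hw n
      · funext o
        rcases o with _ | i
        · simp [hsq]
        · simp [hzx n]

theorem upo_SA [Fintype ι] (f : MvPolynomial ι ℚ) {S : Set (ι → ℚ)}
    (hS : ∀ z ∈ S, ∃ w : ℚ, w ^ 2 = eval z f) (h : SA (closure (rl S))) :
    SA (closure (rl (upo f S))) := by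
  rw [upo_closure f hS]
  refine SAP.and ?_ (SAP.eq ((PF.coord none).pow 2) ?_)
  · exact SAP.preimage (p := fun v => v ∈ closure (rl S)) h (fun i => PF.coord (some i))
  · exact PF.comp (PF.aeval f) (fun i => PF.coord (some i))

theorem upo_ss (f : MvPolynomial ι ℚ) :
    upo f (SS f) = {u | u none ≠ 0 ∧ u none ^ 2 = eval (fun i => u (some i)) f} := by
  ext u
  constructor
  · rintro ⟨⟨w, hw, hw2⟩, hu⟩
    refine ⟨?_, hu⟩
    intro h0
    rw [h0] at hu
    apply hw
    have : w ^ 2 = 0 := by rw [hw2, ← hu]; ring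
    exact pow_eq_zero_iff (two_ne_zero) |>.mp this
  · rintro ⟨h0, hu⟩
    exact ⟨⟨_, h0, hu⟩, hu⟩

theorem rl_un (A B : Set (ι → ℚ)) : rl (A ∪ B) = rl A ∪ rl B := by
  ext x
  constructor
  · rintro ⟨r, hr | hr, rfl⟩
    · exact Or.inl ⟨r, hr, rfl⟩
    · exact Or.inr ⟨r, hr, rfl⟩
  · rintro (⟨r, hr, rfl⟩ | ⟨r, hr, rfl⟩)
    · exact ⟨r, Or.inl hr, rfl⟩
    · exact ⟨r, Or.inr hr, rfl⟩

/-- all rational points -/
theorem all_SA [Fintype ι] (f : MvPolynomial ι ℚ) (h1 : SA (closure (rl (SS f))))
    (h2 : SA (closure (rl {z | eval z f = 0}))) :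
    SA (closure (rl {u : Option ι → ℚ | u none ^ 2 = eval (fun i => u (some i)) f})) := by
  have e1 : {u : Option ι → ℚ | u none ^ 2 = eval (fun i => u (some i)) f} =
      upo f (SS f ∪ {z | eval z f = 0}) := by
    ext u
    constructor
    · intro hu
      refine ⟨?_, hu⟩
      by_cases h0 : u none = 0
      · right
        have hu' : u none ^ 2 = eval (fun i => u (some i)) f := hu
        show eval (fun i => u (some i)) f = 0
        rw [← hu', h0]
        ring
      · exact Or.inl ⟨_, h0, hu⟩
    · exact fun hu => hu.2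
  rw [e1]
  refine upo_SA f ?_ ?_
  · rintro z (⟨w, -, hw⟩ | hz)
    · exact ⟨w, hw⟩
    · refine ⟨0, ?_⟩
      have hz' : eval z f = 0 := hz
      rw [hz']
      ring
  · rw [rl_un, closure_union]
    exact h1.union h2

/-- sets of points with a condition on some coordinates -/
theorem cyl_SA [Finite ι] {κ : Type} [Finite κ] (j : κ → ι) (hj : Function.Injective j)
    {Z : Set (κ → ℚ)} (hZ : SA (closure (rl Z))) :
    SA (closure (rl {z : ι → ℚ | (fun k => z (j k)) ∈ Z})) := by
  classical
  have h1 := values_main (ι := Unit) (κ := ι) (n := κ) (fun _ => Z) (fun _ => hZ) (m := ι)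
    (fun i => if h : ∃ k, j k = i then X (Sum.inl ((), h.choose)) else X (Sum.inr i)) 1
  have h2 : rl {z : ι → ℚ | (fun k => z (j k)) ∈ Z} = {y : ι → ℝ | ∃ (x : Unit → κ → ℚ) (u : ι → ℚ),
      (∀ j, x j ∈ Z) ∧ MvPolynomial.eval (Sum.elim (fun r : Unit × κ => x r.1 r.2) u)
        (1 : MvPolynomial ((Unit × κ) ⊕ ι) ℚ) ≠ 0 ∧
      ∀ k, y k = ((MvPolynomial.eval (Sum.elim (fun r : Unit × κ => x r.1 r.2) u)
        (if h : ∃ l, j l = k then X (Sum.inl ((), h.choose)) else X (Sum.inr k) :
          MvPolynomial ((Unit × κ) ⊕ ι) ℚ) /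
        MvPolynomial.eval (Sum.elim (fun r : Unit × κ => x r.1 r.2) u)
          (1 : MvPolynomial ((Unit × κ) ⊕ ι) ℚ) : ℚ) : ℝ)} := by
    ext y
    constructor
    · rintro ⟨z, hz, rfl⟩
      refine ⟨fun _ k => z (j k), z, fun _ => hz, by simp, fun k => ?_⟩
      rw [map_one, div_one]
      by_cases hk : ∃ l, j l = k
      · rw [dif_pos hk, eval_X]
        simp only [Sum.elim_inl]
        rw [hk.choose_spec]
      · rw [dif_neg hk, eval_X]
        rfl
    · rintro ⟨x, u, hx, -, hy⟩
      refine ⟨fun k => if h : ∃ l, j l = k then x () h.choose else u k, ?_, ?_⟩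
      · show (fun k => _) ∈ Z
        have h3 : (fun k => if h : ∃ l, j l = j k then x () h.choose else u (j k)) = x () := by
          funext k
          have hk : ∃ l, j l = j k := ⟨k, rfl⟩
          rw [dif_pos hk]
          congr 1
          exact hj hk.choose_spec
        rw [h3]
        exact hx ()
      · funext k
        rw [hy k, map_one, div_one]
        by_cases hk : ∃ l, j l = k
        · simp only [dif_pos hk, eval_X, Sum.elim_inl]
        · simp only [dif_neg hk, eval_X, Sum.elim_inr]
  rw [h2]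
  exact h1

theorem biU_SA {α : Type} [Finite α] {A : α → Set (ι → ℚ)} (h : ∀ a, SA (closure (rl (A a)))) :
    SA (closure (rl {z | ∃ a, z ∈ A a})) := by
  classical
  have := Fintype.ofFinite α
  have key : ∀ s : Finset α, SA (closure (rl {z | ∃ a ∈ s, z ∈ A a})) := by
    intro s
    induction s using Finset.induction_on with
    | empty =>
      have e1 : rl {z : ι → ℚ | ∃ a ∈ (∅ : Finset α), z ∈ A a} = ∅ := by
        ext x
        simp [rl]
      rw [e1, closure_empty]
      exact SA.empty
    | insert a s ha ih =>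
      have e1 : {z : ι → ℚ | ∃ b ∈ insert a s, z ∈ A b} = A a ∪ {z | ∃ a ∈ s, z ∈ A a} := by
        ext z
        simp
      rw [e1, rl_un, closure_union]
      exact (h a).union ih
  have h1 := key Finset.univ
  have e1 : {z : ι → ℚ | ∃ a ∈ (Finset.univ : Finset α), z ∈ A a} = {z | ∃ a, z ∈ A a} := by
    ext z
    simp
  rwa [e1] at h1

end

/-! ### The classical form -/

/-- finite unions of sets given by one equation and finitely many inequalities -/
def Semialg {κ : Type} (S : Set (κ → ℝ)) : Prop :=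
  ∃ (k : ℕ) (P : Fin k → MvPolynomial κ ℚ) (G : Fin k → Finset (MvPolynomial κ ℚ)),
    S = {x | ∃ j, (aeval x (P j) : ℝ) = 0 ∧ ∀ g ∈ G j, (0 : ℝ) < aeval x g}

theorem semialg_of {κ : Type} [Finite κ] {S : Set (κ → ℝ)} (h : SA S) : Semialg S := by
  classical
  have := Fintype.ofFinite κ
  set E : κ ≃ Fin (Fintype.card κ) := Fintype.equivFin κ with hE
  have h1 : SA ((fun (x : Fin (Fintype.card κ) → ℝ) k => x (E k)) ⁻¹' S) :=
    SA.preimage h fun k => PF.coord (E k)
  obtain ⟨m, P, G, h2⟩ := SA.frozen h1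
  refine ⟨m, fun j => rename E.symm (P j), fun j => (G j).image (rename E.symm), ?_⟩
  ext x
  have h3 : x ∈ S ↔ (x ∘ E.symm) ∈ ((fun (x : Fin (Fintype.card κ) → ℝ) k => x (E k)) ⁻¹' S) := by
    have h4 : (fun k => (x ∘ E.symm) (E k)) = x := by
      funext k
      simp
    show x ∈ S ↔ (fun k => (x ∘ E.symm) (E k)) ∈ S
    rw [h4]
  rw [h3, h2]
  show (∃ j, _) ↔ ∃ j, _
  refine exists_congr fun j => ?_
  rw [aeval_rename]
  refine and_congr_right fun _ => ?_
  constructor
  · intro h g hg
    obtain ⟨g', hg', rfl⟩ := Finset.mem_image.1 hg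
    rw [aeval_rename]
    exact h g' hg'
  · intro h g hg
    have := h _ (Finset.mem_image_of_mem _ hg)
    rwa [aeval_rename] at this

end Pool.Agent.U199.RS
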