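import Pool.Agent.U199.RS.Typ
import Pool.Agent.U199.RS.Fin
import Pool.Agent.U199.TW.Blk

/-!
# The real closures for products of factors of several kinds
-/

set_option autoImplicit false
set_option linter.unusedSectionVars false

namespace Pool.Agent.U199.RS

open MvPolynomial Pool.Agent.TH729.SQ Pool.Agent.H581R2 Pool.Agent.U199.TW Filter Topology

/-! ### Zero sets -/

theorem univ_SA {ι : Type} [Finite ι] : SA (closure (rl (Set.univ : Set (ι → ℚ)))) := by
  have h1 : SA (closure (rl (Set.univ : Set (Fin 0 → ℚ)))) := by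
    have : closure (rl (Set.univ : Set (Fin 0 → ℚ))) = Set.univ := by
      refine Set.eq_univ_of_forall fun x => subset_closure ⟨0, Set.mem_univ _, ?_⟩
      exact Subsingleton.elim _ _
    rw [this]
    exact SAP.const True
  have h2 := cyl_SA (ι := ι) (κ := Fin 0) (fun k => k.elim0) (fun k => k.elim0) h1
  have h3 : {z : ι → ℚ | (fun k : Fin 0 => z (k.elim0)) ∈ (Set.univ : Set (Fin 0 → ℚ))} =
      Set.univ := Set.eq_univ_of_forall fun z => Set.mem_univ _
  rwa [h3] at h2

theorem zero_small {n : ℕ} (hn : n ≤ 1) (f : MvPolynomial (Fin n) ℚ) :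
    SA (closure (rl {z | eval z f = 0})) := by
  by_cases hf : f = 0
  · subst hf
    have : {z : Fin n → ℚ | eval z (0 : MvPolynomial (Fin n) ℚ) = 0} = Set.univ :=
      Set.eq_univ_of_forall fun z => map_zero _
    rw [this]
    exact univ_SA
  · refine Pool.Agent.Y718.fin_SA ?_
    interval_cases n
    · exact Set.toFinite _
    · set p : Polynomial ℚ := aeval (fun _ => Polynomial.X) f with hp
      have hpe : ∀ z : Fin 1 → ℚ, p.eval (z 0) = eval z f := by
        intro z
        have h1 : ((Polynomial.evalRingHom (z 0)).comp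
            ((aeval (fun _ : Fin 1 => Polynomial.X) :
              MvPolynomial (Fin 1) ℚ →ₐ[ℚ] Polynomial ℚ) : _ →+* _)) = eval z := by
          apply MvPolynomial.ringHom_ext
          · intro s
            simp
          · intro q
            simp [Subsingleton.elim q 0]
        exact congrArg (fun φ => φ f) h1
      have hp0 : p ≠ 0 := by
        intro h0
        apply hf
        apply MvPolynomial.funext
        intro z
        rw [← hpe, h0, Polynomial.eval_zero, map_zero]
      refine (p.roots.toFinset.finite_toSet.image fun t (_ : Fin 1) => t).subset ?_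
      intro z hz
      refine ⟨z 0, ?_, ?_⟩
      · rw [Finset.mem_coe, Multiset.mem_toFinset, Polynomial.mem_roots hp0]
        show p.eval _ = 0
        rw [hpe]
        exact hz
      · funext k
        rw [Subsingleton.elim k 0]

section

variable {r : ℕ} {m : Fin r → ℕ}

theorem zero_prod (f : ∀ b : Fin r, MvPolynomial (Fin (m b)) ℚ) {e : ℚ} (he : e ≠ 0)
    (h : ∀ b, SA (closure (rl {z | eval z (f b) = 0}))) :
    SA (closure (rl {z | eval z (C e * prodS f) = 0})) := by
  have h1 : {z : (Σ b, Fin (m b)) → ℚ | eval z (C e * prodS f) = 0} =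
      {z | ∃ b, z ∈ {z | (fun i => z ⟨b, i⟩) ∈ {z | eval z (f b) = 0}}} := by
    ext z
    simp only [Set.mem_ofPred_eq, map_mul, eval_C, eval_prodS, mul_eq_zero, he, false_or,
      Finset.prod_eq_zero_iff, Finset.mem_univ, true_and]
  rw [h1]
  refine biU_SA fun b => ?_
  exact cyl_SA (fun i : Fin (m b) => (⟨b, i⟩ : Σ b, Fin (m b)))
    (fun i j h => eq_of_heq (Sigma.mk.inj h).2) (h b)

end

/-! ### Products of sets of rational points -/

theorem prod_SA {J : Type} [Finite J] {ι : J → Type} [∀ j, Finite (ι j)] (D : ∀ j, Set (ι j → ℚ))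
    (h : ∀ j, SA (closure (rl (D j)))) :
    SA (closure (rl {x : (Σ j, ι j) → ℚ | ∀ j, (fun i => x ⟨j, i⟩) ∈ D j})) := by
  have h1 : closure (rl {x : (Σ j, ι j) → ℚ | ∀ j, (fun i => x ⟨j, i⟩) ∈ D j}) =
      {x : (Σ j, ι j) → ℝ | ∀ j, (fun i => x ⟨j, i⟩) ∈ closure (rl (D j))} := by
    apply Set.Subset.antisymm
    · refine closure_minimal ?_ ?_
      · rintro _ ⟨y, hy, rfl⟩ j
        exact subset_closure ⟨_, hy j, rfl⟩
      · have : {x : (Σ j, ι j) → ℝ | ∀ j, (fun i => x ⟨j, i⟩) ∈ closure (rl (D j))} =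
            ⋂ j, {x | (fun i => x ⟨j, i⟩) ∈ closure (rl (D j))} := by
          ext x
          simp
        rw [this]
        refine isClosed_iInter fun j => isClosed_closure.preimage ?_
        exact continuous_pi fun i => continuous_apply _
    · intro x hx
      have h2 : (fun j i => x ⟨j, i⟩ : ∀ j, ι j → ℝ) ∈ closure (Set.univ.pi fun j => rl (D j)) := by
        rw [closure_pi_set]
        intro j _
        exact hx j
      have hc : Continuous fun (y : ∀ j, ι j → ℝ) (p : Σ j, ι j) => y p.1 p.2 :=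
        continuous_pi fun p => (continuous_apply p.2).comp (continuous_apply p.1)
      have h3 := image_closure_subset_closure_image hc ⟨_, h2, rfl⟩
      refine closure_mono ?_ h3
      rintro _ ⟨y, hy, rfl⟩
      choose z hz hzy using fun j => hy j (Set.mem_univ j)
      refine ⟨fun p => z p.1 p.2, fun j => hz j, ?_⟩
      funext p
      exact congrFun (hzy p.1) p.2
  rw [h1]
  refine SAP.forall_fin fun j => ?_
  exact SAP.preimage (p := fun v => v ∈ closure (rl (D j))) (h j) fun i => PF.coord _

/-- Values of rational functions. -/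
theorem val_SA {J κ μ : Type} [Finite J] [Finite κ] [Finite μ] {ι : J → Type} [∀ j, Finite (ι j)]
    (D : ∀ j, Set (ι j → ℚ)) (h : ∀ j, SA (closure (rl (D j))))
    (p : μ → MvPolynomial ((Σ j, ι j) ⊕ κ) ℚ) (q : MvPolynomial ((Σ j, ι j) ⊕ κ) ℚ) :
    SA (closure {y : μ → ℝ | ∃ (x : ∀ j, ι j → ℚ) (u : κ → ℚ), (∀ j, x j ∈ D j) ∧
      eval (Sum.elim (fun a => x a.1 a.2) u) q ≠ 0 ∧
      ∀ k, y k = ((eval (Sum.elim (fun a => x a.1 a.2) u) (p k) /
        eval (Sum.elim (fun a => x a.1 a.2) u) q : ℚ) : ℝ)}) := by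
  have h1 := values_main (ι := Unit) (κ := κ) (n := Σ j, ι j) (m := μ)
    (fun _ => {x : (Σ j, ι j) → ℚ | ∀ j, (fun i => x ⟨j, i⟩) ∈ D j}) (fun _ => prod_SA D h)
    (fun k => rename (Sum.map (fun a => ((), a)) id) (p k)) (rename (Sum.map (fun a => ((), a)) id) q)
  convert h1 using 3
  ext y
  constructor
  · rintro ⟨x, u, hx, hq, hy⟩
    refine ⟨fun _ a => x a.1 a.2, u, fun _ => hx, ?_, fun k => ?_⟩
    · rw [eval_rename]
      have e1 : (Sum.elim (fun r : Unit × (Σ j, ι j) => x r.2.1 r.2.2) u) ∘
          Sum.map (fun a => ((), a)) id = Sum.elim (fun a : Σ j, ι j => x a.1 a.2) u := by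
        funext s
        rcases s with s | s <;> rfl
      rwa [e1]
    · rw [eval_rename, eval_rename, hy k]
      have e1 : (Sum.elim (fun r : Unit × (Σ j, ι j) => x r.2.1 r.2.2) u) ∘
          Sum.map (fun a => ((), a)) id = Sum.elim (fun a : Σ j, ι j => x a.1 a.2) u := by
        funext s
        rcases s with s | s <;> rfl
      rw [e1]
  · rintro ⟨x, u, hx, hq, hy⟩
    have e1 : (Sum.elim (fun r : Unit × (Σ j, ι j) => x r.1 r.2) u) ∘
        Sum.map (fun a => ((), a)) id = Sum.elim (fun a : Σ j, ι j => x () ⟨a.1, a.2⟩) u := by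
      funext s
      rcases s with s | s <;> rfl
    refine ⟨fun j i => x () ⟨j, i⟩, u, fun j => hx () j, ?_, fun k => ?_⟩
    · rw [eval_rename, e1] at hq
      exact hq
    · have := hy k
      rw [eval_rename, eval_rename, e1] at this
      exact this

end Pool.Agent.U199.RS
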