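import Pool.Agent.U199.RS.Set
import Pool.Agent.U199.RS.All

/-!
# All rational points whose values have classes in a given set
-/

set_option autoImplicit false
set_option linter.unusedSectionVars false

namespace Pool.Agent.U199.RS

open MvPolynomial Pool.Agent.TH729.SQ Pool.Agent.H581R2 Filter Topology

theorem rb_cst {n : ℕ} : RB (1 : MvPolynomial (Fin n) ℚ) := by
  refine rb_dir (Pi.basisFun ℚ (Fin n)) (Pi.basisFun ℚ (Fin n)).linearIndependent fun k y => ?_
  have h : Pool.Agent.Y718.X.lk (1 : MvPolynomial (Fin n) ℚ) y (Pi.basisFun ℚ (Fin n) k) = 1 := by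
    unfold Pool.Agent.Y718.X.lk
    rw [map_one]
  rw [h, Polynomial.natDegree_one]
  norm_num

section

variable {r : ℕ} {m : Fin r → ℕ} (f : ∀ b, MvPolynomial (Fin (m b)) ℚ)

theorem da_SA (hf : ∀ b, RB (f b)) {A : Set (Fin r → ℚ)} (hA : Stb A) :
    SA (closure (rl (DA f A))) := by
  obtain ⟨E, hE, h⟩ := re_prod hf
  exact sa_re (nv_open f) (nv_sap f) (da_nv f) hE (h A hA)

/-- the points with the given zero pattern -/
def DB (B : Finset (Fin r)) (A : Set (Fin r → ℚ)) : Set ((Σ b, Fin (m b)) → ℚ) :=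
  {z | (∀ b, vals f z b = 0 ↔ b ∈ B) ∧ vals f z ∈ A}

theorem db_SA (hf : ∀ b, RB (f b)) (hz : ∀ b, SA (closure (rl {z | eval z (f b) = 0})))
    {A : Set (Fin r → ℚ)} (hA : Stb A) (B : Finset (Fin r)) : SA (closure (rl (DB f B A))) := by
  classical
  set f' : ∀ b, MvPolynomial (Fin (m b)) ℚ := fun b => if b ∈ B then 1 else f b with hf'
  set A' : Set (Fin r → ℚ) := {a | (fun b => if b ∈ B then 0 else a b) ∈ A} with hA'
  have hRB : ∀ b, RB (f' b) := by
    intro b
    by_cases hb : b ∈ B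
    · simp only [hf', hb, if_true]
      exact rb_cst
    · simp only [hf', hb, if_false]
      exact hf b
  have hS : Stb A' := by
    intro a ha c hc
    have h1 := hA _ ha c hc
    show (fun b => if b ∈ B then 0 else c b ^ 2 * a b) ∈ A
    have h2 : (fun b => if b ∈ B then 0 else c b ^ 2 * a b) =
        fun b => c b ^ 2 * (if b ∈ B then 0 else a b) := by
      funext b
      by_cases hb : b ∈ B
      · simp [hb]
      · simp [hb]
    rwa [h2]
  have hvals : ∀ z b, vals f' z b = if b ∈ B then 1 else vals f z b := by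
    intro z b
    by_cases hb : b ∈ B
    · simp only [vals, hf', hb, if_true, map_one]
    · simp only [vals, hf', hb, if_false]
  have hD' : ∀ z, z ∈ DA f' A' ↔ (∀ b, b ∉ B → vals f z b ≠ 0) ∧
      (fun b => if b ∈ B then 0 else vals f z b) ∈ A := by
    intro z
    have h1 : (fun b => if b ∈ B then 0 else vals f' z b) =
        fun b => if b ∈ B then 0 else vals f z b := by
      funext b
      by_cases hb : b ∈ B
      · simp [hb]
      · simp [hb, hvals]
    constructor
    · rintro ⟨h2, h3⟩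
      refine ⟨fun b hb => ?_, ?_⟩
      · have := h2 b
        rwa [hvals, if_neg hb] at this
      · have h4 : (fun b => if b ∈ B then 0 else vals f' z b) ∈ A := h3
        rwa [h1] at h4
    · rintro ⟨h2, h3⟩
      refine ⟨fun b => ?_, ?_⟩
      · rw [hvals]
        by_cases hb : b ∈ B
        · simp [hb]
        · rw [if_neg hb]
          exact h2 b hb
      · show (fun b => if b ∈ B then 0 else vals f' z b) ∈ A
        rwa [h1]
  have key : closure (rl (DB f B A)) = {x | x ∈ closure (rl (DA f' A')) ∧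
      ∀ b, b ∈ B → (fun i => x ⟨b, i⟩) ∈ closure (rl {z | eval z (f b) = 0})} := by
    apply Set.Subset.antisymm
    · refine closure_minimal ?_ ?_
      · rintro _ ⟨z, ⟨hz1, hz2⟩, rfl⟩
        refine ⟨subset_closure ⟨z, (hD' z).2 ⟨fun b hb h0 => hb ((hz1 b).1 h0), ?_⟩, rfl⟩,
          fun b hb => subset_closure ⟨_, (hz1 b).2 hb, rfl⟩⟩
        have h1 : (fun b => if b ∈ B then 0 else vals f z b) = vals f z := by
          funext b
          by_cases hb : b ∈ B
          · rw [if_pos hb, (hz1 b).2 hb]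
          · rw [if_neg hb]
        rwa [h1]
      · have h0 : IsClosed {x : (Σ b, Fin (m b)) → ℝ | ∀ b, b ∈ B →
            (fun i => x ⟨b, i⟩) ∈ closure (rl {z | eval z (f b) = 0})} := by
          have : {x : (Σ b, Fin (m b)) → ℝ | ∀ b, b ∈ B →
              (fun i => x ⟨b, i⟩) ∈ closure (rl {z | eval z (f b) = 0})} =
              ⋂ b, ⋂ (_ : b ∈ B), {x | (fun i => x ⟨b, i⟩) ∈
                closure (rl {z | eval z (f b) = 0})} := by
            ext x
            simp
          rw [this]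
          exact isClosed_iInter fun b => isClosed_iInter fun _ =>
            isClosed_closure.preimage (continuous_pi fun i => continuous_apply _)
        exact isClosed_closure.inter h0
    · rintro x ⟨hx1, hx2⟩
      obtain ⟨u, hu, hux⟩ := mem_closure_iff_seq_limit.1 hx1
      choose z hz' hzu using hu
      have hy : ∀ b, ∃ y : ℕ → Fin (m b) → ℚ, b ∈ B → (∀ n, eval (y n) (f b) = 0) ∧
          Tendsto (fun n i => (y n i : ℝ)) atTop (𝓝 fun i => x ⟨b, i⟩) := by
        intro b
        by_cases hb : b ∈ B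
        · obtain ⟨v, hv, hvx⟩ := mem_closure_iff_seq_limit.1 (hx2 b hb)
          choose y hy hyv using hv
          refine ⟨y, fun _ => ⟨hy, ?_⟩⟩
          have : (fun n i => (y n i : ℝ)) = v := by
            funext n
            rw [hyv n]
          rwa [this]
        · exact ⟨fun _ _ => 0, fun h => absurd h hb⟩
      choose y hy using hy
      set t : ℕ → (Σ b, Fin (m b)) → ℚ := fun n p => if p.1 ∈ B then y p.1 n p.2 else z n p with ht
      have htv : ∀ n b, vals f (t n) b = if b ∈ B then 0 else vals f (z n) b := by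
        intro n b
        by_cases hb : b ∈ B
        · have h1 : (fun i => t n ⟨b, i⟩) = y b n := by
            funext i
            simp only [ht, hb, if_true]
          rw [vals, h1, if_pos hb]
          exact (hy b hb).1 n
        · have h1 : (fun i => t n ⟨b, i⟩) = fun i => z n ⟨b, i⟩ := by
            funext i
            simp only [ht, hb, if_false]
          rw [vals, h1, if_neg hb]
          rfl
      have hlim : Tendsto (fun n => fun p => (t n p : ℝ)) atTop (𝓝 x) := by
        rw [tendsto_pi_nhds]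
        rintro ⟨b, i⟩
        by_cases hb : b ∈ B
        · simp only [ht, hb, if_true]
          exact (tendsto_pi_nhds.1 (hy b hb).2) i
        · simp only [ht, hb, if_false]
          have h1 := (tendsto_pi_nhds.1 hux) ⟨b, i⟩
          refine h1.congr fun n => ?_
          rw [hzu n]
      refine mem_closure_of_tendsto hlim (Eventually.of_forall fun n => ?_)
      obtain ⟨h1, h2⟩ := (hD' _).1 (hz' n)
      refine ⟨t n, ⟨fun b => ?_, ?_⟩, rfl⟩
      · rw [htv]
        by_cases hb : b ∈ B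
        · simp [hb]
        · simp [hb, h1 b hb]
      · have h3 : vals f (t n) = fun b => if b ∈ B then 0 else vals f (z n) b :=
          funext fun b => htv n b
        rw [h3]
        exact h2
  rw [key]
  refine SAP.and (da_SA f' hRB hS) (SAP.forall_fin fun b => ?_)
  by_cases hb : b ∈ B
  · refine SAP.congr (p := fun x : (Σ b, Fin (m b)) → ℝ => (fun i => x ⟨b, i⟩) ∈
      closure (rl {z | eval z (f b) = 0})) ?_ fun x => by simp [hb]
    exact SAP.preimage (p := fun v => v ∈ closure (rl {z | eval z (f b) = 0})) (hz b)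
      fun i => PF.coord _
  · exact SAP.congr (SAP.const True) fun x => by simp [hb]

/-- **All points.** -/
theorem dall_SA (hf : ∀ b, RB (f b)) (hz : ∀ b, SA (closure (rl {z | eval z (f b) = 0})))
    {A : Set (Fin r → ℚ)} (hA : Stb A) : SA (closure (rl {z | vals f z ∈ A})) := by
  classical
  have h1 : {z | vals f z ∈ A} = {z | ∃ B : Finset (Fin r), z ∈ DB f B A} := by
    ext z
    constructor
    · intro h
      refine ⟨Finset.univ.filter fun b => vals f z b = 0, fun b => by simp, h⟩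
    · rintro ⟨B, -, h⟩
      exact h
  rw [h1]
  exact biU_SA fun B => db_SA f hf hz hA B

/-! ### The covers -/

variable {s : ℕ} (e : Fin s → ℚ) (a : Fin s → Fin r → ℕ)

/-- the right-hand sides of the equations -/
noncomputable def eqn (i : Fin s) : MvPolynomial (Σ b, Fin (m b)) ℚ :=
  C (e i) * ∏ b, rename (Sigma.mk b) (f b) ^ a i b

theorem eqn_eval (i : Fin s) (z : (Σ b, Fin (m b)) → ℚ) :
    eval z (eqn f e a i) = e i * ∏ b, vals f z b ^ a i b := by
  unfold eqn
  rw [map_mul, eval_C, map_prod]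
  congr 1
  refine Finset.prod_congr rfl fun b _ => ?_
  rw [map_pow, eval_rename]
  rfl

/-- the classes for which the equations can be solved -/
def AE (A : Set (Fin r → ℚ)) : Set (Fin r → ℚ) :=
  {t | t ∈ A ∧ ∀ i, ∃ w : ℚ, w ^ 2 = e i * ∏ b, t b ^ a i b}

theorem ae_stb {A : Set (Fin r → ℚ)} (hA : Stb A) : Stb (AE e a A) := by
  rintro t ⟨ht, hw⟩ c hc
  refine ⟨hA t ht c hc, fun i => ?_⟩
  obtain ⟨w, hw⟩ := hw i
  refine ⟨w * ∏ b, c b ^ a i b, ?_⟩
  rw [mul_pow, hw, ← Finset.prod_pow, mul_assoc, ← Finset.prod_mul_distrib]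
  congr 1
  refine Finset.prod_congr rfl fun b _ => ?_
  rw [mul_pow]
  ring

/-- all points -/
def PT (A : Set (Fin r → ℚ)) : Set (Fin s ⊕ (Σ b, Fin (m b)) → ℚ) :=
  {u | vals f (fun k => u (Sum.inr k)) ∈ A ∧
    ∀ i, u (Sum.inl i) ^ 2 = eval (fun k => u (Sum.inr k)) (eqn f e a i)}

/-- the points at which no factor vanishes -/
def PO (A : Set (Fin r → ℚ)) : Set (Fin s ⊕ (Σ b, Fin (m b)) → ℚ) :=
  {u | (∀ b, vals f (fun k => u (Sum.inr k)) b ≠ 0) ∧ u ∈ PT f e a A}

theorem pt_mup (A : Set (Fin r → ℚ)) :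
    PT f e a A = mup (eqn f e a) {z | vals f z ∈ AE e a A} := by
  ext u
  constructor
  · rintro ⟨h1, h2⟩
    exact ⟨⟨h1, fun i => ⟨u (Sum.inl i), by rw [h2 i, eqn_eval]⟩⟩, h2⟩
  · rintro ⟨⟨h1, -⟩, h2⟩
    exact ⟨h1, h2⟩

theorem po_mup (A : Set (Fin r → ℚ)) : PO f e a A = mup (eqn f e a) (DA f (AE e a A)) := by
  ext u
  constructor
  · rintro ⟨h0, h1, h2⟩
    exact ⟨⟨h0, h1, fun i => ⟨u (Sum.inl i), by rw [h2 i, eqn_eval]⟩⟩, h2⟩
  · rintro ⟨⟨h0, h1, -⟩, h2⟩
    exact ⟨h0, h1, h2⟩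

theorem po_SA (hf : ∀ b, RB (f b)) {A : Set (Fin r → ℚ)} (hA : Stb A) :
    SA (closure (rl (PO f e a A))) := by
  rw [po_mup]
  refine mup_SA _ ?_ (da_SA f hf (ae_stb e a hA))
  rintro z ⟨-, -, h⟩ i
  rw [eqn_eval]
  exact h i

theorem pt_SA (hf : ∀ b, RB (f b)) (hz : ∀ b, SA (closure (rl {z | eval z (f b) = 0})))
    {A : Set (Fin r → ℚ)} (hA : Stb A) : SA (closure (rl (PT f e a A))) := by
  rw [pt_mup]
  refine mup_SA _ ?_ (dall_SA f hf hz (ae_stb e a hA))
  rintro z ⟨-, h⟩ i
  rw [eqn_eval]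
  exact h i

/-- **Connected sets of real points.** -/
theorem po_conn {f : ∀ b, MvPolynomial (Fin (m b)) ℚ} {e : Fin s → ℚ} {a : Fin s → Fin r → ℕ}
    {E : Set (Set (Σ b, Fin (m b)) × ((Σ b, Fin (m b)) → ℚ))} (hE : E.Finite)
    (h : ∀ A : Set (Fin r → ℚ), Stb A → RE E (NV f) (DA f A)) {A : Set (Fin r → ℚ)} (hA : Stb A)
    {u : Fin s ⊕ (Σ b, Fin (m b)) → ℚ} (hu : u ∈ PO f e a A) :
    ∃ q ∈ E, (∀ k, k ∉ q.1 → u (Sum.inr k) = q.2 k) ∧
      ∀ S : Set (Fin s ⊕ (Σ b, Fin (m b)) → ℝ), IsPreconnected S → (fun k => (u k : ℝ)) ∈ S →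
      (∀ x ∈ S, NV f (fun k => x (Sum.inr k)) ∧ (∀ k, k ∉ q.1 → x (Sum.inr k) = (q.2 k : ℝ)) ∧
        ∀ i, x (Sum.inl i) ^ 2 = aeval (fun k => x (Sum.inr k)) (eqn f e a i)) →
      S ⊆ closure (rl (PO f e a A)) := by
  have hA' := ae_stb e a hA
  rw [po_mup] at hu
  obtain ⟨hu1, hu2⟩ := hu
  obtain ⟨q, hq, hq1, hR⟩ := h _ hA' _ hu1
  refine ⟨q, hq, hq1, fun S hS huS hSV x hx => ?_⟩
  have hpr : IsPreconnected ((fun (x : Fin s ⊕ (Σ b, Fin (m b)) → ℝ) k => x (Sum.inr k)) '' S) :=
    hS.image _ (by fun_prop)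
  have h1 := conn_re (nv_open f) (da_nv f) hE (h _ hA') hu1 hq1 hR hpr (by
    rintro _ ⟨y, hy, rfl⟩
    exact ⟨(hSV y hy).2.1, (hSV y hy).1⟩) ⟨_, huS, rfl⟩ ⟨x, hx, rfl⟩
  rw [po_mup, mup_closure _ (by
    rintro z ⟨-, -, h⟩ i
    rw [eqn_eval]
    exact h i)]
  exact ⟨h1, (hSV x hx).2.2⟩

end

end Pool.Agent.U199.RS
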