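import Pool.Agent.U199.RS.Line
import Pool.Agent.U199.TW.TU
import Pool.Agent.Q26.TT.Ev

/-!
# Real density in boxes: smooth forms of multidegree (4,…,4)
-/

set_option autoImplicit false
set_option linter.unusedSectionVars false

namespace Pool.Agent.U199.RS

open MvPolynomial Pool.Agent.Y720.MZ Pool.Agent.Q35.TT Pool.Agent.Q68.TT.Sal
  Pool.Agent.TH729.SQ Pool.Agent.Q192.TT

section gen

variable {ι : Type}

/-- the real point `x` lies in the box with the sides `U k`, `k ∈ J`, in the plane through `z` -/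
def InB (J : Set ι) (z : ι → ℚ) (U : ι → Set ℝ) (x : ι → ℝ) : Prop :=
  (∀ k ∈ J, x k ∈ U k) ∧ ∀ k, k ∉ J → x k = (z k : ℝ)

/-- The sides of the box are open intervals which contain the coordinates of `z`, and `f` is positive
on the box. -/
structure Box (f : MvPolynomial ι ℚ) (J : Set ι) (z : ι → ℚ) (U : ι → Set ℝ) : Prop where
  opn : ∀ k, IsOpen (U k)
  con : ∀ k, IsPreconnected (U k)
  mem : ∀ k, (z k : ℝ) ∈ U k
  pos : ∀ x, InB J z U x → (0 : ℝ) < aeval x f

/-- the rational points at which `f` is a nonzero square -/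
def SS (f : MvPolynomial ι ℚ) : Set (ι → ℚ) := {z | ∃ w, w ≠ 0 ∧ w ^ 2 = eval z f}

/-- the boxes at `z` are in the closure -/
def RR (f : MvPolynomial ι ℚ) (J : Set ι) (z : ι → ℚ) : Prop :=
  ∀ U, Box f J z U → ∀ x, InB J z U x → x ∈ closure (rl (SS f))

end gen

/-! ### One direction -/

section

variable {n : ℕ}

lemma closure_sdiff {A U : Set ℝ} (hU : IsOpen U) (h : U ⊆ closure A) {G : Set ℝ} (hG : G.Finite) :
    U ⊆ closure (A \ G) := by
  intro x hx
  rw [mem_closure_iff]
  intro V hV hxV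
  have h1 : ((V ∩ U) \ G).Nonempty := by
    have h2 : (V ∩ U).Infinite := infinite_of_mem_nhds x ((hV.inter hU).mem_nhds ⟨hxV, hx⟩)
    exact (h2.sdiff hG).nonempty
  obtain ⟨u, ⟨hu1, hu2⟩, hu3⟩ := h1
  have h4 : IsOpen ((V ∩ U) \ G) := (hV.inter hU).sdiff hG.isClosed
  obtain ⟨a, ha1, ha2⟩ := mem_closure_iff.1 (h hu2) _ h4 ⟨⟨hu1, hu2⟩, hu3⟩
  exact ⟨a, ha1.1.1, ha2, ha1.2⟩

theorem rq_lc (f : MvPolynomial (Fin n) ℚ) (hf : ∀ j, f.degreeOf j ≤ 4) (y : Fin n → ℚ)
    (i : Fin n) (t : ℝ) : rq (lc f (af y) i) t =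
      (aeval (Function.update (fun k => (y k : ℝ)) i t) f : ℝ) := by
  have h1 : Continuous fun t : ℝ => (aeval (Function.update (fun k => (y k : ℝ)) i t) f : ℝ) := by
    refine (continuous_aeval f).comp ?_
    exact continuous_const.update i continuous_id
  have h2 := Rat.denseRange_cast (𝕜 := ℝ) |>.equalizer (rq_cont (lc f (af y) i)) h1 (by
    funext r
    show rq (lc f (af y) i) (r : ℝ) = (aeval (Function.update (fun k => (y k : ℝ)) i (r : ℝ)) f : ℝ)
    rw [rq_cast, bq_lc f hf]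
    have h3 : Function.update (fun k => (y k : ℝ)) i (r : ℝ) =
        fun k => ((Function.update y i r k : ℚ) : ℝ) := by
      funext k
      by_cases hk : k = i
      · subst hk
        rw [Function.update_self, Function.update_self]
      · rw [Function.update_of_ne hk, Function.update_of_ne hk]
    rw [h3, aeval_cast])
  exact congrFun h2 t

/-- **Moving along a line.** -/
theorem mov_line (f : MvPolynomial (Fin n) ℚ) (hf : ∀ j, f.degreeOf j ≤ 4) {y : Fin n → ℚ}
    (hy : y ∈ SS f) {i : Fin n} (hi : ¬ TorN f y i) {U : Set ℝ} (hUo : IsOpen U)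
    (hU : IsPreconnected U) (hyU : (y i : ℝ) ∈ U)
    (hpos : ∀ t ∈ U, (0 : ℝ) < aeval (Function.update (fun k => (y k : ℝ)) i t) f)
    {F : Set ℚ} (hF : F.Finite) {t : ℝ} (ht : t ∈ U) {ε : ℝ} (hε : 0 < ε) :
    ∃ r : ℚ, |(r : ℝ) - t| < ε ∧ r ∉ F ∧ Function.update y i r ∈ SS f ∧
      ¬ TorN f (Function.update y i r) i := by
  set Q : Fin 5 → ℚ := lc f (af y) i with hQ
  obtain ⟨w, hw, hw2⟩ := hy
  have h1 := line_dense (Q := Q) (s := y i) (w := w) hw (by
    rw [hQ, bq_lc f hf, Function.update_eq_self, hw2]) hi hU hyU (fun t ht => by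
      rw [hQ, rq_lc f hf]
      exact hpos t ht)
  have h2 := closure_sdiff hUo h1 (((line_fin Q).union hF).image ((↑) : ℚ → ℝ))
  obtain ⟨_, ⟨⟨r, rfl, hr⟩, hr2⟩, hr3⟩ := Metric.mem_closure_iff.1 (h2 ht) ε hε
  have hr4 : r ∉ {t : ℚ | Sq (bq Q ![1, t]) ∧ ∃ N, N ≠ 0 ∧ TorT Q t N} ∪ F :=
    fun h => hr2 ⟨r, h, rfl⟩
  rw [Set.mem_union, not_or] at hr4
  refine ⟨r, ?_, hr4.2, ?_, ?_⟩
  · rw [dist_comm, Real.dist_eq] at hr3
    exact hr3
  · obtain ⟨v, hv, hv2⟩ := hr
    exact ⟨v, hv, by rw [hv2, hQ, bq_lc f hf]⟩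
  · rintro ⟨N, hN, h⟩
    rw [Pool.Agent.Q26.TT.lc_update, Function.update_self] at h
    exact hr4.1 ⟨hr, N, hN, h⟩

/-! ### Boxes -/

/-- The rational points in the plane over squares which are not torsion in the direction `i` are dense
in the boxes. -/
def DD (f : MvPolynomial (Fin n) ℚ) (A : Finset (Fin n)) (z : Fin n → ℚ) (i : Fin n) : Prop :=
  ∀ U, Box f (A : Set (Fin n)) z U → ∀ x, InB (A : Set (Fin n)) z U x → ∀ ε : ℝ, 0 < ε →
    ∃ y, y ∈ SS f ∧ OnPl A z y ∧ ¬ TorN f y i ∧ ∀ k, |(y k : ℝ) - x k| < ε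

theorem on_pl_real {A : Finset (Fin n)} {z y : Fin n → ℚ} (h : OnPl A z y) :
    ∀ k, k ∉ (A : Set (Fin n)) → (y k : ℝ) = (z k : ℝ) := by
  intro k hk
  rw [h k (by simpa using hk)]

/-- a small number for finitely many open sets -/
theorem unif {κ : Type} [Finite κ] {U : κ → Set ℝ} (hU : ∀ k, IsOpen (U k)) {P : κ → Prop} {x : κ → ℝ}
    (hx : ∀ k, P k → x k ∈ U k) : ∃ δ : ℝ, 0 < δ ∧ ∀ k, P k → ∀ t, |t - x k| < δ → t ∈ U k := by
  have h1 : ∀ k, ∃ δ : ℝ, 0 < δ ∧ (P k → ∀ t, |t - x k| < δ → t ∈ U k) := by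
    intro k
    by_cases hk : P k
    · obtain ⟨δ, hδ, h⟩ := Metric.isOpen_iff.1 (hU k) _ (hx k hk)
      refine ⟨δ, hδ, fun _ t ht => h ?_⟩
      rw [Metric.mem_ball, Real.dist_eq]
      exact ht
    · exact ⟨1, one_pos, fun h => absurd h hk⟩
  choose δ hδ h using h1
  by_cases hn : Nonempty κ
  · obtain ⟨k0, hk0⟩ := Finite.exists_min δ
    exact ⟨δ k0, hδ k0, fun k hk t ht => h k hk t (lt_of_lt_of_le ht (hk0 k))⟩
  · exact ⟨1, one_pos, fun k => absurd ⟨k⟩ hn⟩

/-- **One more direction.** -/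
theorem step_out (f : MvPolynomial (Fin n) ℚ) (hf : ∀ j, f.degreeOf j ≤ 4) {A : Finset (Fin n)}
    {z : Fin n → ℚ} {k : Fin n} (hk : k ∉ A) (h : DD f A z k) : DD f (insert k A) z k := by
  intro U hU x hx ε hε
  have hxB : InB (A : Set (Fin n)) z U (Function.update x k (z k : ℝ)) := by
    constructor
    · intro j hj
      have hj' : j ∈ A := by simpa using hj
      have hjk : j ≠ k := fun h => hk (h ▸ hj')
      rw [Function.update_of_ne hjk]
      exact hx.1 j (by simp [hj'])
    · intro j hj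
      have hj' : j ∉ A := by simpa using hj
      by_cases hjk : j = k
      · subst hjk
        rw [Function.update_self]
      · rw [Function.update_of_ne hjk]
        exact hx.2 j (by simp [hj', hjk])
  have hB : Box f (A : Set (Fin n)) z U := by
    refine ⟨hU.opn, hU.con, hU.mem, fun x' hx' => hU.pos x' ⟨?_, ?_⟩⟩
    · intro j hj
      have hj' : j = k ∨ j ∈ A := by simpa using hj
      rcases hj' with rfl | hj'
      · rw [hx'.2 j (by simpa using hk)]
        exact hU.mem j
      · exact hx'.1 j (by simpa using hj')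
    · intro j hj
      have hj' : j ∉ A := fun h => hj (by simp [h])
      exact hx'.2 j (by simpa using hj')
  obtain ⟨δ, hδ, hδ1⟩ := unif hU.opn (P := fun j => j ∈ A) (x := x)
    (fun j hj => hx.1 j (by simp [hj]))
  obtain ⟨y, hy, hyA, hyk, hyx⟩ := h U hB _ hxB (min ε δ) (lt_min hε hδ)
  have hyU : ∀ j ∈ A, (y j : ℝ) ∈ U j := by
    intro j hj
    have hjk : j ≠ k := fun h => hk (h ▸ hj)
    have h1 := hyx j
    rw [Function.update_of_ne hjk] at h1
    exact hδ1 j hj _ (lt_of_lt_of_le h1 (min_le_right _ _))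
  have hyz : (y k : ℝ) = (z k : ℝ) := on_pl_real hyA k (by simpa using hk)
  obtain ⟨r, hr1, -, hr2, hr3⟩ := mov_line f hf hy hyk (hU.opn k) (hU.con k) (by
    rw [hyz]
    exact hU.mem k) (fun t ht => by
      refine hU.pos _ ⟨?_, ?_⟩
      · intro j hj
        have hj' : j = k ∨ j ∈ A := by simpa using hj
        by_cases hjk : j = k
        · subst hjk
          rw [Function.update_self]
          exact ht
        · rw [Function.update_of_ne hjk]
          exact hyU j (hj'.resolve_left hjk)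
      · intro j hj
        have hj' : j ≠ k ∧ j ∉ A := by simpa using hj
        rw [Function.update_of_ne hj'.1]
        exact on_pl_real hyA j (by simpa using hj'.2)) (F := ∅) Set.finite_empty
      (t := x k) (hx.1 k (by simp)) hε
  refine ⟨Function.update y k r, hr2, ?_, hr3, ?_⟩
  · intro j hj
    have hj' : j ≠ k ∧ j ∉ A := by simpa using hj
    rw [Function.update_of_ne hj'.1]
    exact hyA j hj'.2
  · intro j
    by_cases hjk : j = k
    · subst hjk
      rw [Function.update_self]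
      exact hr1
    · have h1 := hyx j
      rw [Function.update_of_ne hjk] at h1
      rw [Function.update_of_ne hjk]
      exact lt_of_lt_of_le h1 (min_le_left _ _)

/-- the first direction -/
theorem start (f : MvPolynomial (Fin n) ℚ) (hf : ∀ j, f.degreeOf j ≤ 4) {z : Fin n → ℚ} (hz : z ∈ SS f)
    {i : Fin n} (hi : ¬ TorN f z i) : DD f {i} z i := by
  intro U hU x hx ε hε
  obtain ⟨r, hr1, -, hr2, hr3⟩ := mov_line f hf hz hi (hU.opn i) (hU.con i) (hU.mem i)
    (fun t ht => by
      refine hU.pos _ ⟨?_, ?_⟩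
      · intro j hj
        have hj' : j = i := by simpa using hj
        subst hj'
        rw [Function.update_self]
        exact ht
      · intro j hj
        have hj' : j ≠ i := by simpa using hj
        rw [Function.update_of_ne hj']) (F := ∅) Set.finite_empty (t := x i) (hx.1 i (by simp)) hε
  refine ⟨Function.update z i r, hr2, ?_, hr3, ?_⟩
  · intro j hj
    have hj' : j ≠ i := by simpa using hj
    rw [Function.update_of_ne hj']
  · intro j
    by_cases hji : j = i
    · subst hji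
      rw [Function.update_self]
      exact hr1
    · rw [Function.update_of_ne hji, hx.2 j (by simpa using hji), sub_self, abs_zero]
      exact hε

/-- dense sets in a box are Zariski dense in the plane -/
theorem zar {f : MvPolynomial (Fin n) ℚ} {A : Finset (Fin n)} {z : Fin n → ℚ} {i : Fin n}
    (h : DD f A z i) {U : Fin n → Set ℝ} (hU : Box f (A : Set (Fin n)) z U) {x : Fin n → ℝ}
    (hx : InB (A : Set (Fin n)) z U x) {ε : ℝ} (hε : 0 < ε) {g : MvPolynomial (Fin n) ℚ}
    (hg : ∃ y, OnPl A z y ∧ eval y g ≠ 0) :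
    ∃ y, y ∈ SS f ∧ OnPl A z y ∧ ¬ TorN f y i ∧ (∀ k, |(y k : ℝ) - x k| < ε) ∧ eval y g ≠ 0 := by
  classical
  by_contra hno
  push Not at hno
  obtain ⟨δ, hδ, hδ1⟩ := unif hU.opn (P := fun j => j ∈ A) (x := x)
    (fun j hj => hx.1 j (by simpa using hj))
  -- the polynomial vanishes on the small box
  have key : ∀ y : Fin n → ℚ, OnPl A z y → (∀ k, |(y k : ℝ) - x k| < min ε δ) → eval y g = 0 := by
    intro y hy hyx
    by_contra hne
    have hopen : IsOpen {x' : Fin n → ℝ | (aeval x' g : ℝ) ≠ 0} :=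
      isOpen_ne_fun (continuous_aeval g) continuous_const
    have hmem : (fun k => (y k : ℝ)) ∈ {x' : Fin n → ℝ | (aeval x' g : ℝ) ≠ 0} := by
      show (aeval (fun k => (y k : ℝ)) g : ℝ) ≠ 0
      rw [aeval_cast]
      exact_mod_cast hne
    obtain ⟨η, hη, hη1⟩ := Metric.isOpen_iff.1 hopen _ hmem
    have h1 : ∃ ρ : ℝ, 0 < ρ ∧ ∀ k, |(y k : ℝ) - x k| + ρ ≤ min ε δ := by
      have h2 : ∀ k, ∃ ρ : ℝ, 0 < ρ ∧ |(y k : ℝ) - x k| + ρ ≤ min ε δ := fun k =>
        ⟨min ε δ - |(y k : ℝ) - x k|, by linarith [hyx k], by linarith⟩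
      choose ρ hρ h3 using h2
      by_cases hn : Nonempty (Fin n)
      · obtain ⟨k0, hk0⟩ := Finite.exists_min ρ
        exact ⟨ρ k0, hρ k0, fun k => by linarith [h3 k, hk0 k]⟩
      · exact ⟨1, one_pos, fun k => absurd ⟨k⟩ hn⟩
    obtain ⟨ρ, hρ, hρ1⟩ := h1
    have hyB : InB (A : Set (Fin n)) z U (fun k => (y k : ℝ)) := by
      refine ⟨fun k hk => ?_, fun k hk => on_pl_real hy k hk⟩
      exact hδ1 k (by simpa using hk) _ (lt_of_lt_of_le (hyx k) (min_le_right _ _))
    obtain ⟨y', h4, h5, h6, h7⟩ := h U hU _ hyB (min η ρ) (lt_min hη hρ)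
    have h8 := hno y' h4 h5 h6 (fun k => by
      have h9 := abs_add_le ((y' k : ℝ) - y k) ((y k : ℝ) - x k)
      have h10 : (y' k : ℝ) - y k + ((y k : ℝ) - x k) = (y' k : ℝ) - x k := by ring
      rw [h10] at h9
      have h11 := lt_of_lt_of_le (h7 k) (min_le_right _ _)
      have h12 := hρ1 k
      have h13 := min_le_left ε δ
      linarith)
    have h14 : (fun k => (y' k : ℝ)) ∈ Metric.ball (fun k => (y k : ℝ)) η := by
      rw [Metric.mem_ball, dist_pi_lt_iff hη]
      intro k
      rw [Real.dist_eq]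
      exact lt_of_lt_of_le (h7 k) (min_le_left _ _)
    have h15 := hη1 h14
    apply h15
    rw [aeval_cast, h8, Rat.cast_zero]
  obtain ⟨y0, hy0, hy0g⟩ := hg
  have hres : Pool.Agent.U199.TW.res (A : Set (Fin n)) z g ≠ 0 := by
    rw [Pool.Agent.U199.TW.res_ne_zero]
    exact ⟨y0, fun k hk => hy0 k (by simpa using hk), hy0g⟩
  apply hres
  set m := min ε δ with hm
  have hm0 : 0 < m := lt_min hε hδ
  refine funext_set (fun k => {r : ℚ | |(r : ℝ) - x k| < m}) (fun k => ?_) fun y hy => ?_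
  · -- infinitely many rational numbers in an interval
    have h1 : (Set.range ((↑) : ℚ → ℝ) ∩ Metric.ball (x k) m).Infinite := by
      have h2 : Dense (Set.range ((↑) : ℚ → ℝ)) := Rat.denseRange_cast
      intro hfin
      have h3 := closure_sdiff (A := Set.range ((↑) : ℚ → ℝ)) (U := Set.univ) isOpen_univ
        (fun x _ => h2 x) hfin
      obtain ⟨a, ha1, ha2⟩ := mem_closure_iff.1 (h3 (Set.mem_univ (x k))) _ Metric.isOpen_ball
        (Metric.mem_ball_self hm0)
      exact ha2.2 ⟨ha2.1, ha1⟩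
    intro hfin
    apply h1
    refine (hfin.image ((↑) : ℚ → ℝ)).subset ?_
    rintro _ ⟨⟨r, rfl⟩, hr⟩
    refine ⟨r, ?_, rfl⟩
    rw [Metric.mem_ball, Real.dist_eq] at hr
    exact hr
  · rw [Pool.Agent.U199.TW.eval_res, map_zero]
    apply key
    · intro k hk
      exact if_neg (by simpa using hk)
    · intro k
      by_cases hk : k ∈ (A : Set (Fin n))
      · rw [if_pos hk]
        exact hy k (Set.mem_univ k)
      · rw [if_neg hk, hx.2 k hk, sub_self, abs_zero]
        exact hm0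

/-- **Passing to another direction.** -/
theorem step_edge (f : MvPolynomial (Fin n) ℚ) (hf : ∀ j, f.degreeOf j ≤ 4) {A : Finset (Fin n)}
    {z : Fin n → ℚ} {i k : Fin n} (hi : i ∈ A) (hik : i ≠ k) (h : DD f A z i)
    {y0 : Fin n → ℚ} (hy0 : OnPl A z y0) (hfy : eval y0 f ≠ 0)
    (hND : ND (lc f (af y0) i) (lc (pderiv k f) (af y0) i)) : DD f A z k := by
  intro U hU x hx ε hε
  obtain ⟨δ, hδ, hδ1⟩ := unif hU.opn (P := fun j => j ∈ A) (x := x)
    (fun j hj => hx.1 j (by simpa using hj))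
  have hclo := Pool.Agent.Q238.TT.clo ℚ n f (pderiv k f) hf
    (fun j => (Pool.Agent.Q224.TT.degreeOf_pderiv_le f k j).trans (hf j)) A z i
    {y | y ∈ SS f ∧ ¬ TorN f y i ∧ ∀ k, |(y k : ℝ) - x k| < min ε δ} (by
      intro g hg
      obtain ⟨y, h1, h2, h3, h4, h5⟩ := zar h hU hx (lt_min hε hδ) hg
      exact ⟨y, ⟨h1, h3, h4⟩, h2, h5⟩)
  by_cases hall : ∀ y ∈ {y | y ∈ SS f ∧ ¬ TorN f y i ∧ ∀ k, |(y k : ℝ) - x k| < min ε δ},
      OnPl A z y → ¬ ND (lc f (af y) i) (lc (pderiv k f) (af y) i)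
  · exact absurd hND (hclo hall y0 hy0 hfy)
  · push Not at hall
    obtain ⟨y, ⟨h1, h2, h3⟩, h4, h5⟩ := hall
    have hF := tbn_of orn2 ℚ n f hf y i k hik h5
    have hyU : ∀ j ∈ A, (y j : ℝ) ∈ U j := fun j hj =>
      hδ1 j hj _ (lt_of_lt_of_le (h3 j) (min_le_right _ _))
    have hpos : 0 < min ε δ - |(y i : ℝ) - x i| := by linarith [h3 i]
    obtain ⟨r, hr1, hr2, hr3, -⟩ := mov_line f hf h1 h2 (hU.opn i) (hU.con i) (hyU i hi) (fun t ht => by
      refine hU.pos _ ⟨?_, ?_⟩
      · intro j hj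
        by_cases hji : j = i
        · subst hji
          rw [Function.update_self]
          exact ht
        · rw [Function.update_of_ne hji]
          exact hyU j (by simpa using hj)
      · intro j hj
        have hji : j ≠ i := by
          rintro rfl
          exact hj (by simpa using hi)
        rw [Function.update_of_ne hji]
        exact on_pl_real h4 j hj) hF (t := (y i : ℝ)) (hyU i hi) hpos
    refine ⟨Function.update y i r, hr3, ?_, hr2, ?_⟩
    · intro j hj
      have hji : j ≠ i := by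
        rintro rfl
        exact hj hi
      rw [Function.update_of_ne hji]
      exact h4 j hj
    · intro j
      by_cases hji : j = i
      · subst hji
        rw [Function.update_self]
        have h6 := abs_add_le ((r : ℝ) - y j) ((y j : ℝ) - x j)
        have h7 : (r : ℝ) - y j + ((y j : ℝ) - x j) = (r : ℝ) - x j := by ring
        rw [h7] at h6
        have h8 := min_le_left ε δ
        linarith
      · rw [Function.update_of_ne hji]
        exact lt_of_lt_of_le (h3 j) (min_le_left _ _)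

/-- **The plane in which a point moves.** -/
theorem base_box (f : MvPolynomial (Fin n) ℚ) (hf : ∀ j, f.degreeOf j ≤ 4) (hsm : SmoothN f)
    (hfin : FinSpec f) {z : Fin n → ℚ} (hz : z ∈ SS f) (ht : ∃ i, ¬ TorN f z i) :
    ∃ A : Finset (Fin n), A.Nonempty ∧ SpecN f z A ∧ RR f (A : Set (Fin n)) z := by
  classical
  have hz0 : eval z f ≠ 0 := by
    obtain ⟨w, hw, hw2⟩ := hz
    rw [← hw2]
    exact pow_ne_zero 2 hw
  obtain ⟨i0, hi0⟩ := ht
  obtain ⟨A, hAmem, hAmax⟩ := Finset.exists_max_image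
    (Finset.univ.filter (fun A : Finset (Fin n) => ∃ i ∈ A, DD f A z i)) Finset.card
    ⟨{i0}, Finset.mem_filter.2 ⟨Finset.mem_univ _, i0, Finset.mem_singleton_self _,
      start f hf hz hi0⟩⟩
  obtain ⟨-, i1, hi1, hDi1⟩ := Finset.mem_filter.1 hAmem
  set J' : Finset (Fin n) := A.filter (fun i => DD f A z i) with hJ'
  have hJ'A : J' ⊆ A := Finset.filter_subset _ _
  have hJ'ne : J'.Nonempty := ⟨i1, Finset.mem_filter.2 ⟨hi1, hDi1⟩⟩
  have hline : ∀ i ∈ J', ∀ k, k ∉ J' → ∀ y, OnPl A z y → eval y f ≠ 0 →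
      ¬ ND (lc f (af y) i) (lc (pderiv k f) (af y) i) := by
    intro i hi k hk y hy hyf hND
    have hik : i ≠ k := fun h => hk (h ▸ hi)
    obtain ⟨hiA, hiD⟩ := Finset.mem_filter.1 hi
    have h1 := step_edge f hf hiA hik hiD hy hyf hND
    by_cases hkA : k ∈ A
    · exact hk (Finset.mem_filter.2 ⟨hkA, h1⟩)
    · have h2 := step_out f hf hkA h1
      have h3 := hAmax (insert k A) (Finset.mem_filter.2 ⟨Finset.mem_univ _, k,
        Finset.mem_insert_self k A, h2⟩)
      rw [Finset.card_insert_of_notMem hkA] at h3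
      omega
  have hspec : ∀ y, OnPl A z y → eval y f ≠ 0 → SpecN f y J' := by
    intro y hy hy0
    refine Pool.Agent.Q224.TT.sqf ℚ n f hf hsm J' y hJ'ne hy0 ?_
    intro i hi k hk y' hy' hy'0
    exact hline i hi k hk y' (Pool.Agent.Q224.TT.on_trans hJ'A hy hy') hy'0
  have hJJ : J' = A := by
    by_contra hne
    obtain ⟨j, hj, hj'⟩ := Finset.exists_of_ssubset (lt_of_le_of_ne hJ'A hne)
    have hJ'u : J' ≠ Finset.univ := fun h => hj' (by rw [h]; exact Finset.mem_univ j)
    have hfinite := hfin J' hJ'ne hJ'u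
    have hinf := Pool.Agent.Q224.TT.fin_zero z j f hz0
    apply hinf
    have hmaps : Set.MapsTo (fun t : ℚ => {y | OnPl J' (Function.update z j t) y})
        {t : ℚ | eval (Function.update z j t) f ≠ 0}
        {P : Set (Fin n → ℚ) | ∃ z, eval z f ≠ 0 ∧ SpecN f z J' ∧ P = {y | OnPl J' z y}} := by
      intro t ht
      exact ⟨Function.update z j t, ht, hspec _ (Pool.Agent.Q224.TT.on_update A z hj t) ht, rfl⟩
    refine Set.Finite.of_injOn hmaps ?_ hfinite
    intro t _ t' _ htt
    have h9 : Function.update z j t ∈ {y | OnPl J' (Function.update z j t') y} := by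
      have h10 : Function.update z j t ∈ {y | OnPl J' (Function.update z j t) y} :=
        Pool.Agent.Q224.TT.on_refl _ _
      have h11 : {y | OnPl J' (Function.update z j t) y} = {y | OnPl J' (Function.update z j t') y} := htt
      rw [h11] at h10
      exact h10
    have h12 : (Function.update z j t) j = (Function.update z j t') j := h9 j hj'
    rw [Function.update_self, Function.update_self] at h12
    exact h12
  refine ⟨A, ⟨i1, hi1⟩, ?_, ?_⟩
  · have h13 := hspec z (Pool.Agent.Q224.TT.on_refl A z) hz0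
    rwa [hJJ] at h13
  · intro U hU x hx
    rw [Metric.mem_closure_iff]
    intro ε hε
    obtain ⟨y, hy, -, -, hyx⟩ := hDi1 U hU x hx ε hε
    refine ⟨_, ⟨y, hy, rfl⟩, ?_⟩
    rw [dist_comm, dist_pi_lt_iff hε]
    intro k
    rw [Real.dist_eq]
    exact hyx k

end

end Pool.Agent.U199.RS
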