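import Pool.Agent.U199.RS.Gen

/-!
# Isolated values, uniformly in all families of twists
-/

set_option autoImplicit false
set_option linter.unusedSectionVars false

namespace Pool.Agent.U199.RS

open MvPolynomial Pool.Agent.TH729.SQ Pool.Agent.H581R2 Filter Topology

section

variable {ι : Type} [Fintype ι]

/-- a polynomial which vanishes on a small box of a plane vanishes on the plane -/
theorem plane_zero {J : Set ι} {c : ι → ℚ} {z : ι → ℚ} (hz : ∀ k, k ∉ J → z k = c k)
    {δ : ℝ} (hδ : 0 < δ) {g : MvPolynomial ι ℚ}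
    (h : ∀ y : ι → ℚ, (∀ k, k ∉ J → y k = c k) → (∀ k, |(y k : ℝ) - z k| < δ) → eval y g = 0) :
    ∀ y : ι → ℚ, (∀ k, k ∉ J → y k = c k) → eval y g = 0 := by
  classical
  set g' : MvPolynomial ι ℚ := bind₁ (fun k => if k ∈ J then X k else C (c k)) g with hg'
  have hev : ∀ y : ι → ℚ, eval y g' = eval (fun k => if k ∈ J then y k else c k) g := by
    intro y
    have h1 : (eval y).comp (bind₁ (fun k => if k ∈ J then (X k : MvPolynomial ι ℚ) else
        C (c k)) : MvPolynomial ι ℚ →+* MvPolynomial ι ℚ) =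
        eval (fun k => if k ∈ J then y k else c k) := by
      apply MvPolynomial.ringHom_ext
      · intro s
        simp
      · intro k
        by_cases hk : k ∈ J
        · simp [hk]
        · simp [hk]
    exact congrArg (fun φ => φ g) h1
  have h0 : g' = 0 := by
    refine MvPolynomial.funext_set (fun k => {t : ℚ | |(t : ℝ) - z k| < δ}) (fun k => ?_)
      fun y hy => ?_
    · have h2 : ((fun n : ℕ => (z k : ℚ) + 1 / (n + 1 + (⌈1 / δ⌉₊ : ℚ)))).Injective := by
        intro a b hab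
        simp only [add_right_inj, one_div, inv_inj] at hab
        have : (a : ℚ) = b := by linarith
        exact_mod_cast this
      refine (Set.infinite_range_of_injective h2).mono ?_
      rintro _ ⟨n, rfl⟩
      show |((((z k : ℚ) + 1 / (n + 1 + (⌈1 / δ⌉₊ : ℚ)) : ℚ)) : ℝ) - z k| < δ
      push_cast
      rw [add_sub_cancel_left]
      have h3 : (0 : ℝ) < (n : ℝ) + 1 + (⌈1 / δ⌉₊ : ℝ) := by positivity
      rw [abs_of_pos (by positivity), one_div, inv_lt_comm₀ h3 hδ]
      have h4 : δ⁻¹ ≤ (⌈1 / δ⌉₊ : ℝ) := by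
        have := Nat.le_ceil (1 / δ)
        rwa [one_div] at this ⊢
      have h5 : (0 : ℝ) ≤ (n : ℝ) := Nat.cast_nonneg n
      linarith
    · rw [hev, map_zero]
      refine h _ (fun k hk => by simp [hk]) fun k => ?_
      by_cases hk : k ∈ J
      · simp only [hk, if_true]
        exact hy k (Set.mem_univ k)
      · simp only [hk, if_false]
        rw [← hz k hk, sub_self, abs_zero]
        exact hδ
  intro y hy
  have h1 : (fun k => if k ∈ J then y k else c k) = y := by
    funext k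
    by_cases hk : k ∈ J
    · simp [hk]
    · simp [hk, hy k hk]
  rw [← h1, ← hev, h0, map_zero]

/-- the values of the functions `p k / q` at the points of `D` in `Ω` -/
def VO {μ : Type} (D : Set (ι → ℚ)) (Ω : Set (ι → ℝ)) (p : μ → MvPolynomial ι ℚ)
    (q : MvPolynomial ι ℚ) : Set (μ → ℚ) :=
  {t | ∃ x ∈ D, (fun k => (x k : ℝ)) ∈ Ω ∧ eval x q ≠ 0 ∧ ∀ k, t k = eval x (p k) / eval x q}

/-- the functions are constant on the plane -/
def CP {μ : Type} (J : Set ι × (ι → ℚ)) (p : μ → MvPolynomial ι ℚ) (q : MvPolynomial ι ℚ)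
    (t : μ → ℚ) : Prop :=
  (∃ y : ι → ℚ, (∀ k, k ∉ J.1 → y k = J.2 k) ∧ eval y q ≠ 0) ∧
  ∀ y : ι → ℚ, (∀ k, k ∉ J.1 → y k = J.2 k) → ∀ k, eval y (p k) = t k * eval y q

theorem cp_unique {μ : Type} {J : Set ι × (ι → ℚ)} {p : μ → MvPolynomial ι ℚ}
    {q : MvPolynomial ι ℚ} {t t' : μ → ℚ} (h : CP J p q t) (h' : CP J p q t') : t = t' := by
  obtain ⟨⟨y, hy, hq⟩, h1⟩ := h
  funext k
  have h2 := h1 y hy k
  have h3 := h'.2 y hy k
  rw [h2] at h3
  exact mul_right_cancel₀ hq h3

/-- **An isolated value is constant on a plane.** -/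
theorem iso_plane {μ : Type} [Finite μ] {P : (ι → ℝ) → Prop} (hP : IsOpen {x | P x})
    {D : Set (ι → ℚ)} (hD : ∀ z ∈ D, P fun k => (z k : ℝ)) {E : Set (Set ι × (ι → ℚ))}
    (h : RE E P D) {Ω : Set (ι → ℝ)} (hΩ : IsOpen Ω) {p : μ → MvPolynomial ι ℚ}
    {q : MvPolynomial ι ℚ} {t : μ → ℚ} (ht : t ∈ VO D Ω p q)
    (hiso : ∃ U ∈ 𝓝 (fun k => (t k : ℝ)), ∀ s ∈ VO D Ω p q, (fun k => (s k : ℝ)) ∈ U → s = t) :
    ∃ J ∈ E, CP J p q t := by
  classical
  have := Fintype.ofFinite μ
  obtain ⟨x, hx, hxΩ, hxq, hxt⟩ := ht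
  obtain ⟨U, hU, hiso⟩ := hiso
  obtain ⟨J, hJ, hJx, hR⟩ := h x hx
  refine ⟨J, hJ, ⟨x, hJx, hxq⟩, ?_⟩
  -- a neighbourhood of `x`
  have hqR : ∀ y : ι → ℚ, (aeval (fun k => (y k : ℝ)) q : ℝ) = ((eval y q : ℚ) : ℝ) :=
    fun y => Pool.Agent.TH729.SQ.aeval_cast y q
  have hcont : ContinuousAt (fun (y : ι → ℝ) (k : μ) => (aeval y (p k) : ℝ) / aeval y q)
      (fun k => (x k : ℝ)) := by
    refine continuousAt_pi.2 fun k => ContinuousAt.div
      (Pool.Agent.TH729.SQ.continuous_aeval _).continuousAt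
      (Pool.Agent.TH729.SQ.continuous_aeval _).continuousAt ?_
    rw [hqR]
    exact_mod_cast hxq
  have hval : (fun k => (aeval (fun k => (x k : ℝ)) (p k) : ℝ) / aeval (fun k => (x k : ℝ)) q) =
      fun k => (t k : ℝ) := by
    funext k
    rw [hqR, Pool.Agent.TH729.SQ.aeval_cast, hxt k]
    push_cast
    rfl
  have hnh : {y : ι → ℝ | P y ∧ y ∈ Ω ∧ (aeval y q : ℝ) ≠ 0 ∧
      (fun k => (aeval y (p k) : ℝ) / aeval y q) ∈ U} ∈ 𝓝 (fun k => (x k : ℝ)) := by
    refine Filter.inter_mem (hP.mem_nhds (hD x hx)) (Filter.inter_mem (hΩ.mem_nhds hxΩ)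
      (Filter.inter_mem ?_ ?_))
    · refine (isOpen_ne_fun (Pool.Agent.TH729.SQ.continuous_aeval q) continuous_const).mem_nhds ?_
      show (aeval (fun k => (x k : ℝ)) q : ℝ) ≠ 0
      rw [hqR]
      exact_mod_cast hxq
    · refine hcont ?_
      show U ∈ 𝓝 (fun k => (aeval (fun k => (x k : ℝ)) (p k) : ℝ) / aeval (fun k => (x k : ℝ)) q)
      rw [hval]
      exact hU
  obtain ⟨δ, hδ, hball⟩ := Metric.mem_nhds_iff.1 hnh
  have hnear : ∀ y : ι → ℝ, (∀ k, |y k - x k| < δ) → P y ∧ y ∈ Ω ∧ (aeval y q : ℝ) ≠ 0 ∧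
      (fun k => (aeval y (p k) : ℝ) / aeval y q) ∈ U := by
    intro y hy
    refine hball ?_
    rw [Metric.mem_ball, dist_pi_lt_iff hδ]
    intro k
    rw [Real.dist_eq]
    exact hy k
  have hB : BoxP P J.1 x (fun k => Metric.ball (x k : ℝ) δ) :=
    p_box (fun y hy => (hnear y hy).1) fun k => by
      rw [sub_self, abs_zero]
      exact hδ
  -- the functions are constant on the box
  have hconst : ∀ y : ι → ℚ, (∀ k, k ∉ J.1 → y k = J.2 k) → (∀ k, |(y k : ℝ) - x k| < δ) →
      ∀ k, eval y (p k) = t k * eval y q := by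
    intro y hyJ hy k
    by_contra hne
    have hyq : (aeval (fun k => (y k : ℝ)) q : ℝ) ≠ 0 := (hnear _ hy).2.2.1
    have hyq' : eval y q ≠ 0 := by
      intro h0
      apply hyq
      rw [hqR, h0]
      norm_num
    have hcl := hR _ hB (fun k => (y k : ℝ)) ⟨fun k _ => by
      rw [Metric.mem_ball, Real.dist_eq]
      exact hy k, fun k hk => congrArg (fun r : ℚ => (r : ℝ)) ((hyJ k hk).trans (hJx k hk).symm)⟩
    have hne' : (aeval (fun k => (y k : ℝ)) (p k) : ℝ) / aeval (fun k => (y k : ℝ)) q ≠ t k := by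
      rw [hqR, Pool.Agent.TH729.SQ.aeval_cast]
      intro h0
      apply hne
      have h1 : ((eval y (p k) / eval y q : ℚ) : ℝ) = ((t k : ℚ) : ℝ) := by
        push_cast
        exact h0
      have h2 : eval y (p k) / eval y q = t k := by exact_mod_cast h1
      rw [← h2]
      field_simp
    have hN : {v : ι → ℝ | (∀ k, |v k - x k| < δ) ∧
        (aeval v (p k) : ℝ) / aeval v q ≠ t k} ∈ 𝓝 (fun k => (y k : ℝ)) := by
      refine Filter.inter_mem ?_ ?_
      · have h3 : Metric.ball (fun k => (x k : ℝ)) δ ∈ 𝓝 (fun k => (y k : ℝ)) := by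
          refine Metric.isOpen_ball.mem_nhds ?_
          rw [Metric.mem_ball, dist_pi_lt_iff hδ]
          intro k
          rw [Real.dist_eq]
          exact hy k
        filter_upwards [h3] with v hv
        rw [Metric.mem_ball, dist_pi_lt_iff hδ] at hv
        intro k
        have := hv k
        rwa [Real.dist_eq] at this
      · exact ((Pool.Agent.TH729.SQ.continuous_aeval (p k)).continuousAt.div
          (Pool.Agent.TH729.SQ.continuous_aeval q).continuousAt hyq).eventually_ne hne'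
    obtain ⟨_, ⟨hv1, hv2⟩, v, hv, rfl⟩ := mem_closure_iff_nhds.1 hcl _ hN
    obtain ⟨-, hvΩ, hvq, hvU⟩ := hnear _ hv1
    have hvq' : eval v q ≠ 0 := by
      intro h0
      apply hvq
      rw [hqR, h0]
      norm_num
    have h4 := hiso (fun k => eval v (p k) / eval v q) ⟨v, hv, hvΩ, hvq', fun _ => rfl⟩ (by
      have h5 : (fun k => ((eval v (p k) / eval v q : ℚ) : ℝ)) =
          fun k => (aeval (fun k => (v k : ℝ)) (p k) : ℝ) / aeval (fun k => (v k : ℝ)) q := by
        funext k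
        rw [hqR, Pool.Agent.TH729.SQ.aeval_cast]
        push_cast
        rfl
      rw [h5]
      exact hvU)
    apply hv2
    rw [hqR, Pool.Agent.TH729.SQ.aeval_cast, ← congrFun h4 k]
    push_cast
    rfl
  intro y hy k
  have h6 := plane_zero hJx hδ (g := p k - C (t k) * q) (fun y hyJ hy => by
    rw [map_sub, map_mul, eval_C, hconst y hyJ hy k, sub_self]) y hy
  rw [map_sub, map_mul, eval_C] at h6
  linarith

/-- **One finite set for all.** -/
theorem iso_fin {μ : Type} [Finite μ] {E : Set (Set ι × (ι → ℚ))} (hE : E.Finite)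
    (p : μ → MvPolynomial ι ℚ) (q : MvPolynomial ι ℚ) :
    {t : μ → ℚ | ∃ J ∈ E, CP J p q t}.Finite := by
  classical
  refine (hE.image fun J => if h : ∃ t, CP J p q t then h.choose else 0).subset ?_
  rintro t ⟨J, hJ, ht⟩
  refine ⟨J, hJ, ?_⟩
  have h : ∃ t, CP J p q t := ⟨t, ht⟩
  simp only [dif_pos h]
  exact cp_unique h.choose_spec ht

end

end Pool.Agent.U199.RS
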