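import Pool.Agent.Q68.TT.Sal
import Pool.Agent.Q35.TB.All

/-!
# Real density of the rational points on the curves `w² = quartic`
-/

set_option autoImplicit false
set_option linter.unusedSectionVars false

namespace Pool.Agent.U199.RS

open MvPolynomial Pool.Agent.Y720.MZ Pool.Agent.Q35.TT Pool.Agent.Q68.TT.Sal Pool.Agent.Y718.X
  Pool.Agent.TH729.SQ Pool.Agent.Q192.TT

/-- the value of the quartic polynomial at a real number -/
def rq (Q : Fin 5 → ℚ) (t : ℝ) : ℝ :=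
  (Q 0 : ℝ) + (Q 1 : ℝ) * t + (Q 2 : ℝ) * t ^ 2 + (Q 3 : ℝ) * t ^ 3 + (Q 4 : ℝ) * t ^ 4

theorem rq_cast (Q : Fin 5 → ℚ) (t : ℚ) : rq Q (t : ℝ) = ((bq Q ![1, t] : ℚ) : ℝ) := by
  rw [bq_one, rq]
  push_cast
  ring

theorem rq_cont (Q : Fin 5 → ℚ) : Continuous (rq Q) := by
  unfold rq
  fun_prop

/-- a polynomial in one variable -/
noncomputable def p1 (Q : Fin 5 → ℚ) : MvPolynomial (Fin 1) ℚ := ∑ i : Fin 5, C (Q i) * X 0 ^ (i : ℕ)

theorem p1_eval (Q : Fin 5 → ℚ) (z : Fin 1 → ℚ) : eval z (p1 Q) = bq Q ![1, z 0] := by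
  have h1 : eval z (p1 Q) = ∑ i : Fin 5, Q i * z 0 ^ (i : ℕ) := by
    rw [p1, map_sum]
    refine Finset.sum_congr rfl fun i _ => ?_
    rw [map_mul, map_pow, eval_C, eval_X]
  have h3 : ((3 : Fin 5) : ℕ) = 3 := rfl
  have h4 : ((4 : Fin 5) : ℕ) = 4 := rfl
  have h0 : ((0 : Fin 5) : ℕ) = 0 := rfl
  have h5 : ((1 : Fin 5) : ℕ) = 1 := rfl
  have h2 : ((2 : Fin 5) : ℕ) = 2 := rfl
  rw [h1, bq_one]
  simp only [Fin.sum_univ_five, h0, h5, h2, h3, h4]
  ring

theorem p1_aeval (Q : Fin 5 → ℚ) (z : Fin 1 → ℝ) : (aeval z (p1 Q) : ℝ) = rq Q (z 0) := by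
  have h1 : (aeval z (p1 Q) : ℝ) = ∑ i : Fin 5, (Q i : ℝ) * z 0 ^ (i : ℕ) := by
    rw [p1, map_sum]
    refine Finset.sum_congr rfl fun i _ => ?_
    rw [map_mul, map_pow, aeval_C, aeval_X]
    rfl
  have h3 : ((3 : Fin 5) : ℕ) = 3 := rfl
  have h4 : ((4 : Fin 5) : ℕ) = 4 := rfl
  have h0 : ((0 : Fin 5) : ℕ) = 0 := rfl
  have h5 : ((1 : Fin 5) : ℕ) = 1 := rfl
  have h2 : ((2 : Fin 5) : ℕ) = 2 := rfl
  rw [h1, rq]
  simp only [Fin.sum_univ_five, h0, h5, h2, h3, h4]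
  ring

theorem lk_p1 (Q : Fin 5 → ℚ) (z : Fin 1 → ℚ) :
    lk (p1 Q) z (Pi.single 0 1) = qpol (bq Q ![1, z 0]) (tay Q (z 0) 0) (tay Q (z 0) 1)
      (tay Q (z 0) 2) (tay Q (z 0) 3) := by
  refine Polynomial.funext fun t => ?_
  rw [lk_eval, eval_qpol, p1_eval, ← bq_add]
  have h0 : (z + t • (Pi.single 0 1 : Fin 1 → ℚ)) 0 = z 0 + t := by simp
  rw [h0]

theorem lin1 : LinearIndependent ℚ (fun _ => Pi.single 0 1 : Fin 1 → Fin 1 → ℚ) := by
  have h3 := (Pi.basisFun ℚ (Fin 1)).linearIndependent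
  have h4 : (fun _ => Pi.single 0 1 : Fin 1 → Fin 1 → ℚ) = ⇑(Pi.basisFun ℚ (Fin 1)) := by
    funext i
    rw [Pi.basisFun_apply, Subsingleton.elim i 0]
  rw [h4]
  exact h3

/-- nonzero squares -/
def Sq (x : ℚ) : Prop := ∃ w : ℚ, w ≠ 0 ∧ w ^ 2 = x

/-- the connected set argument in one variable -/
theorem one_conn {Q : Fin 5 → ℚ} {s : ℚ} (hz : (fun _ => s : Fin 1 → ℚ) ∈ TN (p1 Q)) {U : Set ℝ}
    (hU : IsPreconnected U) (hsU : (s : ℝ) ∈ U) (hpos : ∀ t ∈ U, 0 < rq Q t) :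
    U ⊆ closure {x : ℝ | ∃ t : ℚ, x = t ∧ Sq (bq Q ![1, t])} := by
  intro t ht
  have h1 : IsPreconnected ((fun (u : ℝ) (_ : Fin 1) => u) '' U) :=
    hU.image _ (by fun_prop)
  have h2 := TN_conn hz h1 (by
    rintro _ ⟨u, hu, rfl⟩
    rw [p1_aeval]
    exact hpos u hu) ⟨(s : ℝ), hsU, rfl⟩ (Set.mem_image_of_mem _ ht)
  have h3 : Continuous fun x : Fin 1 → ℝ => x 0 := continuous_apply 0
  have h4 := image_closure_subset_closure_image h3 ⟨_, h2, rfl⟩
  refine closure_mono ?_ h4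
  rintro _ ⟨_, ⟨r, hr, rfl⟩, rfl⟩
  obtain ⟨⟨w, hw, hw2⟩, -⟩ := hr
  refine ⟨r 0, rfl, w, hw, ?_⟩
  rw [hw2, p1_eval]

/-- **Density on a line.** -/
theorem line_dense {Q : Fin 5 → ℚ} {s w : ℚ} (hw : w ≠ 0) (hw2 : w ^ 2 = bq Q ![1, s])
    (hno : ¬ ∃ N, N ≠ 0 ∧ TorT Q s N) {U : Set ℝ}
    (hU : IsPreconnected U) (hsU : (s : ℝ) ∈ U) (hpos : ∀ t ∈ U, 0 < rq Q t) :
    U ⊆ closure {x : ℝ | ∃ t : ℚ, x = t ∧ Sq (bq Q ![1, t])} := by
  by_cases hd : dc (Q 0) (Q 1) (Q 2) (Q 3) (Q 4) = 0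
  · -- a rational curve
    obtain ⟨c0, hc0⟩ : ∃ c0, c0 = Q 0 + s * Q 1 + s ^ 2 * Q 2 + s ^ 3 * Q 3 + s ^ 4 * Q 4 := ⟨_, rfl⟩
    obtain ⟨c1, hc1⟩ : ∃ c1, c1 = Q 1 + 2 * s * Q 2 + 3 * s ^ 2 * Q 3 + 4 * s ^ 3 * Q 4 := ⟨_, rfl⟩
    obtain ⟨c2, hc2⟩ : ∃ c2, c2 = Q 2 + 3 * s * Q 3 + 6 * s ^ 2 * Q 4 := ⟨_, rfl⟩
    obtain ⟨c3, hc3⟩ : ∃ c3, c3 = Q 3 + 4 * s * Q 4 := ⟨_, rfl⟩
    have hq : ∀ τ, bq Q ![1, s + τ] = c0 + c1 * τ + c2 * τ ^ 2 + c3 * τ ^ 3 + Q 4 * τ ^ 4 := by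
      intro τ
      rw [bq_one, hc0, hc1, hc2, hc3]
      ring
    have hq' : ∀ τ : ℝ, rq Q (s + τ) = (c0 : ℝ) + c1 * τ + c2 * τ ^ 2 + c3 * τ ^ 3 + Q 4 * τ ^ 4 := by
      intro τ
      rw [rq, hc0, hc1, hc2, hc3]
      push_cast
      ring
    have hw0 : w ^ 2 = c0 := by
      have h1 := hq 0
      rw [add_zero] at h1
      rw [hw2, h1]
      ring
    have hc00 : c0 ≠ 0 := by
      rw [← hw0]
      exact pow_ne_zero 2 hw
    have hd' : dc c0 c1 c2 c3 (Q 4) = 0 := by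
      rw [hc0, hc1, hc2, hc3, dc_shift]
      exact hd
    rcases fac hc00 hd' with ⟨x0, x1, x2, y0, hx2, hfac⟩ | ⟨x0, x1, y0, y1, y2, hx1, hfac⟩
    · have h0 : w ^ 2 = y0 * x2 ^ 2 := by
        have h1 := hfac 0
        rw [hw0]
        linear_combination h1
      have hy0 : y0 = (w / x2) ^ 2 := by
        rw [div_pow, h0]
        field_simp
      intro t ht
      have hopen : IsOpen {t : ℝ | 0 < rq Q t} := isOpen_lt continuous_const (rq_cont Q)
      have hd1 : Dense (Set.range ((↑) : ℚ → ℝ)) := Rat.denseRange_cast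
      have h2 := hd1.open_subset_closure_inter hopen (hpos t ht)
      refine closure_mono ?_ h2
      rintro _ ⟨h3, r, rfl⟩
      have h3' : (0 : ℝ) < rq Q (r : ℝ) := h3
      rw [rq_cast] at h3'
      have h4 : (0 : ℚ) < bq Q ![1, r] := by exact_mod_cast h3'
      have h5 : bq Q ![1, r] = ((w / x2) * (x0 * (r - s) ^ 2 + x1 * (r - s) + x2)) ^ 2 := by
        have h6 := hq (r - s)
        rw [add_sub_cancel] at h6
        rw [h6, hfac, hy0]
        ring
      refine ⟨r, rfl, _, ?_, h5.symm⟩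
      intro h6
      rw [h6] at h5
      rw [h5] at h4
      norm_num at h4
    · have h0 : w ^ 2 = x1 ^ 2 * y2 := by
        have h1 := hfac 0
        rw [hw0]
        linear_combination h1
      have hreal : ∀ τ : ℝ, rq Q (s + τ) =
          ((x0 : ℝ) * τ + x1) ^ 2 * ((y0 : ℝ) * τ ^ 2 + y1 * τ + y2) := by
        have e1 : (Polynomial.C (c0 : ℝ) + Polynomial.C (c1 : ℝ) * Polynomial.X +
            Polynomial.C (c2 : ℝ) * Polynomial.X ^ 2 + Polynomial.C (c3 : ℝ) * Polynomial.X ^ 3 +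
            Polynomial.C ((Q 4 : ℚ) : ℝ) * Polynomial.X ^ 4) =
            (Polynomial.C (x0 : ℝ) * Polynomial.X + Polynomial.C (x1 : ℝ)) ^ 2 *
              (Polynomial.C (y0 : ℝ) * Polynomial.X ^ 2 + Polynomial.C (y1 : ℝ) * Polynomial.X +
                Polynomial.C (y2 : ℝ)) := by
          refine Polynomial.eq_of_infinite_eval_eq _ _ ?_
          refine (Set.infinite_range_of_injective (f := ((↑) : ℚ → ℝ)) Rat.cast_injective).mono ?_
          rintro _ ⟨τ, rfl⟩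
          have := hfac τ
          simp only [Set.mem_ofPred_eq, Polynomial.eval_add, Polynomial.eval_mul, Polynomial.eval_C,
            Polynomial.eval_X, Polynomial.eval_pow]
          exact_mod_cast this
        intro τ
        have e2 := congrArg (Polynomial.eval τ) e1
        simp only [Polynomial.eval_add, Polynomial.eval_mul, Polynomial.eval_C,
            Polynomial.eval_X, Polynomial.eval_pow] at e2
        rw [hq', e2]
      set Q' : Fin 5 → ℚ := ![y2, y1, y0, 0, 0] with hQ'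
      have hb' : ∀ τ : ℚ, bq Q' ![1, τ] = y2 + y1 * τ + y0 * τ ^ 2 := by
        intro τ
        rw [bq_one, hQ']
        simp
      have hr' : ∀ τ : ℝ, rq Q' τ = (y0 : ℝ) * τ ^ 2 + y1 * τ + y2 := by
        intro τ
        rw [rq, hQ']
        simp
        ring
      have hTN : (fun _ => 0 : Fin 1 → ℚ) ∈ TN (p1 Q') := by
        refine ⟨⟨w / x1, div_ne_zero hw hx1, ?_⟩, fun _ => Pi.single 0 1, lin1, fun k => ?_⟩
        · rw [p1_eval]
          rw [hb', div_pow, h0]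
          field_simp
          ring
        · have hdeg : ∀ z : Fin 1 → ℚ, (lk (p1 Q') z (Pi.single 0 1)).natDegree ≤ 2 := by
            intro z
            rw [lk_p1]
            have t3 : tay Q' (z 0) 2 = 0 := by
              change Q' 3 + 4 * Q' 4 * z 0 = 0
              simp [hQ']
            have t4 : tay Q' (z 0) 3 = 0 := by
              change Q' 4 = 0
              simp [hQ']
            rw [t3, t4]
            unfold qpol
            rw [Polynomial.C_0, zero_mul, zero_mul, add_zero, add_zero]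
            compute_degree
          exact ⟨fun z => (hdeg z).trans (by norm_num), Or.inl hdeg⟩
      have hU' : IsPreconnected ((fun u : ℝ => u - s) '' U) := hU.image _ (by fun_prop)
      have hc := one_conn hTN hU' ⟨(s : ℝ), hsU, by simp⟩ (by
        rintro _ ⟨u, hu, rfl⟩
        rw [hr']
        have h1 := hpos u hu
        have h2 := hreal (u - s)
        rw [add_sub_cancel] at h2
        rw [h2] at h1
        by_contra hc
        push Not at hc
        have h3 := mul_nonpos_of_nonneg_of_nonpos (sq_nonneg ((x0 : ℝ) * (u - s) + x1)) hc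
        linarith)
      intro t ht
      have h1 := hc ⟨t, ht, rfl⟩
      have hopen : IsOpen {τ : ℝ | 0 < rq Q (s + τ)} :=
        isOpen_lt continuous_const ((rq_cont Q).comp (continuous_const.add continuous_id))
      have h3 : t - s ∈ closure ({τ : ℝ | 0 < rq Q (s + τ)} ∩
          {x : ℝ | ∃ t : ℚ, x = t ∧ Sq (bq Q' ![1, t])}) := by
        refine hopen.inter_closure ⟨?_, h1⟩
        show 0 < rq Q (s + (t - s))
        rw [add_sub_cancel]
        exact hpos t ht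
      have h4 := image_closure_subset_closure_image (f := fun τ : ℝ => s + τ) (by fun_prop)
        ⟨_, h3, rfl⟩
      have h5 : (s : ℝ) + (t - s) = t := by ring
      change (s : ℝ) + (t - s) ∈ _ at h4
      rw [h5] at h4
      refine closure_mono ?_ h4
      rintro _ ⟨_, ⟨k1, τ, rfl, v, hv, hv2⟩, rfl⟩
      refine ⟨s + τ, by push_cast; rfl, (x0 * τ + x1) * v, ?_, ?_⟩
      · refine mul_ne_zero ?_ hv
        intro h6
        have k2 : (0 : ℝ) < rq Q (s + τ) := k1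
        rw [hreal] at k2
        have h7 : (x0 : ℝ) * τ + x1 = 0 := by exact_mod_cast h6
        rw [h7] at k2
        norm_num at k2
      · rw [mul_pow, hv2, hb', hq, hfac]
        ring
  · -- a curve of genus one
    refine one_conn ⟨⟨w, hw, ?_⟩, fun _ => Pi.single 0 1, lin1, fun k => ⟨?_, Or.inr ⟨0, fun _ _ => rfl, ?_⟩⟩⟩
      hU hsU hpos
    · rw [p1_eval]
      exact hw2
    · intro z
      rw [lk_p1]
      exact qpol_deg
    · have h3 : (fun _ : Fin 1 => s) + ∑ j : Fin 1, (0 : Fin 1 → ℚ) j •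
          (Pi.single 0 1 : Fin 1 → ℚ) = fun _ : Fin 1 => s := by simp
      rw [h3, lk_p1]
      refine inf_of (a := Q) (s := s) hw hw2 hd fun n hn h => hno ⟨n, hn, ?_⟩
      have h1 := tws2 ℚ Q 1 s w n one_ne_zero
      simp only [one_mul] at h1
      exact (h1.1 h).2.2

/-- Only finitely many points of the line over squares are torsion. -/
theorem line_fin (Q : Fin 5 → ℚ) :
    {t : ℚ | Sq (bq Q ![1, t]) ∧ ∃ N, N ≠ 0 ∧ TorT Q t N}.Finite := by
  by_cases hd : dc (Q 0) (Q 1) (Q 2) (Q 3) (Q 4) = 0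
  · convert Set.finite_empty
    ext t
    simp only [Set.mem_ofPred_eq, Set.mem_empty_iff_false, iff_false]
    rintro ⟨⟨w, hw, hw2⟩, N, hN, h⟩
    have h1 := tws2 ℚ Q 1 t w N one_ne_zero
    simp only [one_mul] at h1
    exact (h1.2 ⟨hw, hw2, h⟩).2.2.1 hd
  · refine (tor_finite Q hd).subset ?_
    rintro t ⟨⟨w, hw, hw2⟩, N, hN, h⟩
    have h1 := tws2 ℚ Q 1 t w N one_ne_zero
    simp only [one_mul] at h1
    exact ⟨w, N, hN, h1.2 ⟨hw, hw2, h⟩⟩

end Pool.Agent.U199.RS
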