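import Pool.Agent.U199.RS.Grow

/-!
# Real density in boxes: all twists, products
-/

set_option autoImplicit false
set_option linter.unusedSectionVars false

namespace Pool.Agent.U199.RS

open MvPolynomial Pool.Agent.Y720.MZ Pool.Agent.Q35.TT Pool.Agent.TH729.SQ Pool.Agent.U199.TW

/-- the point `x` lies in the plane `q` -/
def OnQ {ι R : Type} (c : ℚ → R) (q : Set ι × (ι → ℚ)) (x : ι → R) : Prop := ∀ k, k ∉ q.1 → x k = c (q.2 k)

/-- every point over a nonzero square lies in one of the planes and its boxes are in the closure -/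
def RP {ι : Type} (E : Set (Set ι × (ι → ℚ))) (f : MvPolynomial ι ℚ) : Prop :=
  ∀ z ∈ SS f, ∃ q ∈ E, (∀ k, k ∉ q.1 → z k = q.2 k) ∧ RR f q.1 z

/-- Finitely many planes for all twists. -/
def RB {ι : Type} (f : MvPolynomial ι ℚ) : Prop :=
  ∃ E : Set (Set ι × (ι → ℚ)), E.Finite ∧ ∀ e : ℚ, e ≠ 0 → RP E (C e * f)

theorem rr_point {ι : Type} {f : MvPolynomial ι ℚ} {z : ι → ℚ} (hz : z ∈ SS f) : RR f ∅ z := by
  intro U hU x hx
  refine subset_closure ⟨z, hz, ?_⟩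
  funext k
  exact hx.2 k (Set.notMem_empty k)

theorem rb_base {n : ℕ} (f : MvPolynomial (Fin n) ℚ) (hf : ∀ j, f.degreeOf j ≤ 4) (hs : SmoothN f)
    (hfin : FinSpec f) : RB f := by
  classical
  refine ⟨(fun z => ((∅ : Set (Fin n)), z)) '' {z | ∀ i, TorN f z i} ∪ ({(Set.univ, 0)} ∪
    ⋃ J ∈ {J : Finset (Fin n) | J.Nonempty ∧ J ≠ Finset.univ},
      (fun P : Set (Fin n → ℚ) => ((J : Set (Fin n)), if h : P.Nonempty then h.some else 0)) ''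
        {P : Set (Fin n → ℚ) | ∃ z, eval z f ≠ 0 ∧ SpecN f z J ∧ P = {y | OnPl J z y}}), ?_, ?_⟩
  · refine ((tan2 ℚ n f hf hs).image _).union ((Set.finite_singleton _).union ?_)
    exact (Set.toFinite _).biUnion fun J hJ => (hfin J hJ.1 hJ.2).image _
  · intro e he z hz
    obtain ⟨i1, i2, i3, i4⟩ := Pool.Agent.Q35.TB.inv2 ℚ n f hf e he
    by_cases ht : ∀ i, TorN f z i
    · exact ⟨_, Or.inl ⟨z, ht, rfl⟩, fun _ _ => rfl, rr_point hz⟩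
    · push Not at ht
      obtain ⟨i, hi⟩ := ht
      obtain ⟨A, hA, hsp, hR⟩ := base_box (C e * f) i1 (i2 hs) (i3 hfin) hz
        ⟨i, fun h => hi (((i4 z).1 i).1 h)⟩
      have hsp' := ((i4 z).2 A).1 hsp
      by_cases hAu : A = Finset.univ
      · subst hAu
        rw [Finset.coe_univ] at hR
        exact ⟨_, Or.inr (Or.inl rfl), fun k hk => absurd (Set.mem_univ k) hk, hR⟩
      · have hz0 : eval z f ≠ 0 := by
          obtain ⟨w, hw, hw2⟩ := hz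
          intro h
          rw [map_mul, h, mul_zero] at hw2
          exact hw (pow_eq_zero_iff two_ne_zero |>.1 hw2)
        have hne : ({y | OnPl A z y} : Set (Fin n → ℚ)).Nonempty := ⟨z, fun _ _ => rfl⟩
        refine ⟨((A : Set (Fin n)), hne.some), Or.inr (Or.inr ?_), ?_, hR⟩
        · rw [Set.mem_iUnion₂]
          refine ⟨A, ⟨hA, hAu⟩, {y | OnPl A z y}, ⟨z, hz0, hsp', rfl⟩, ?_⟩
          simp only [dif_pos hne]
        · intro k hk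
          have h1 : OnPl A z hne.some := hne.some_mem
          exact (h1 k (by simpa using hk)).symm

section

variable {ι₁ ι₂ : Type}

theorem aeval_mulS (f₁ : MvPolynomial ι₁ ℚ) (f₂ : MvPolynomial ι₂ ℚ) (x₁ : ι₁ → ℝ) (x₂ : ι₂ → ℝ) :
    (aeval (Sum.elim x₁ x₂) (mulS f₁ f₂) : ℝ) = aeval x₁ f₁ * aeval x₂ f₂ := by
  unfold mulS
  rw [map_mul, aeval_rename, aeval_rename]
  rfl

theorem aeval_Cmul {ι : Type} (e : ℚ) (f : MvPolynomial ι ℚ) (x : ι → ℝ) :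
    (aeval x (C e * f) : ℝ) = (e : ℝ) * aeval x f := by
  rw [map_mul, aeval_C]
  rfl

theorem rr_mul {f₁ : MvPolynomial ι₁ ℚ} {f₂ : MvPolynomial ι₂ ℚ} {e : ℚ} {J₁ : Set ι₁} {J₂ : Set ι₂}
    {z₁ : ι₁ → ℚ} {z₂ : ι₂ → ℚ} {w : ℚ} (hw : w ≠ 0) (hwz : w ^ 2 = e * (eval z₁ f₁ * eval z₂ f₂))
    (h1 : RR (C (e * eval z₂ f₂) * f₁) J₁ z₁) (h2 : RR (C (e * eval z₁ f₁) * f₂) J₂ z₂) :
    RR (C e * mulS f₁ f₂) (Sum.inl '' J₁ ∪ Sum.inr '' J₂) (Sum.elim z₁ z₂) := by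
  intro U hU x hx
  have hin : ∀ (x₁ : ι₁ → ℝ) (x₂ : ι₂ → ℝ), InB J₁ z₁ (fun k => U (Sum.inl k)) x₁ →
      InB J₂ z₂ (fun k => U (Sum.inr k)) x₂ →
      InB (Sum.inl '' J₁ ∪ Sum.inr '' J₂) (Sum.elim z₁ z₂) U (Sum.elim x₁ x₂) := by
    intro x₁ x₂ k1 k2
    constructor
    · rintro _ (⟨k, hk, rfl⟩ | ⟨k, hk, rfl⟩)
      · exact k1.1 k hk
      · exact k2.1 k hk
    · rintro (k | k) hk
      · exact k1.2 k fun h => hk (Or.inl ⟨k, h, rfl⟩)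
      · exact k2.2 k fun h => hk (Or.inr ⟨k, h, rfl⟩)
  have hself1 : InB J₁ z₁ (fun k => U (Sum.inl k)) (fun k => (z₁ k : ℝ)) :=
    ⟨fun k _ => hU.mem (Sum.inl k), fun _ _ => rfl⟩
  have hself2 : InB J₂ z₂ (fun k => U (Sum.inr k)) (fun k => (z₂ k : ℝ)) :=
    ⟨fun k _ => hU.mem (Sum.inr k), fun _ _ => rfl⟩
  have hB1 : Box (C (e * eval z₂ f₂) * f₁) J₁ z₁ (fun k => U (Sum.inl k)) := by
    refine ⟨fun k => hU.opn _, fun k => hU.con _, fun k => hU.mem (Sum.inl k), fun x₁ k1 => ?_⟩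
    have k2 := hU.pos _ (hin _ _ k1 hself2)
    rw [aeval_Cmul, aeval_mulS, aeval_cast] at k2
    rw [aeval_Cmul]
    push_cast
    linarith
  have hB2 : Box (C (e * eval z₁ f₁) * f₂) J₂ z₂ (fun k => U (Sum.inr k)) := by
    refine ⟨fun k => hU.opn _, fun k => hU.con _, fun k => hU.mem (Sum.inr k), fun x₂ k1 => ?_⟩
    have k2 := hU.pos _ (hin _ _ hself1 k1)
    rw [aeval_Cmul, aeval_mulS, aeval_cast] at k2
    rw [aeval_Cmul]
    push_cast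
    linarith
  have hx1 := h1 _ hB1 (fun k => x (Sum.inl k)) ⟨fun k hk => hx.1 _ (Or.inl ⟨k, hk, rfl⟩),
    fun k hk => hx.2 (Sum.inl k) (by simpa using hk)⟩
  have hx2 := h2 _ hB2 (fun k => x (Sum.inr k)) ⟨fun k hk => hx.1 _ (Or.inr ⟨k, hk, rfl⟩),
    fun k hk => hx.2 (Sum.inr k) (by simpa using hk)⟩
  have hp : ((fun k => x (Sum.inl k)), fun k => x (Sum.inr k)) ∈
      closure (rl (SS (C (e * eval z₂ f₂) * f₁)) ×ˢ rl (SS (C (e * eval z₁ f₁) * f₂))) := by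
    rw [closure_prod_eq]
    exact ⟨hx1, hx2⟩
  have hc : Continuous fun p : (ι₁ → ℝ) × (ι₂ → ℝ) => (Sum.elim p.1 p.2 : ι₁ ⊕ ι₂ → ℝ) := by
    refine continuous_pi fun k => ?_
    rcases k with k | k
    · exact (continuous_apply k).comp continuous_fst
    · exact (continuous_apply k).comp continuous_snd
  have h3 := image_closure_subset_closure_image hc ⟨_, hp, rfl⟩
  have h4 : (Sum.elim (fun k => x (Sum.inl k)) (fun k => x (Sum.inr k)) : ι₁ ⊕ ι₂ → ℝ) = x := by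
    funext k
    rcases k with k | k <;> rfl
  change (Sum.elim (fun k => x (Sum.inl k)) (fun k => x (Sum.inr k)) : ι₁ ⊕ ι₂ → ℝ) ∈ _ at h3
  rw [h4] at h3
  refine closure_mono ?_ h3
  rintro _ ⟨⟨_, _⟩, ⟨⟨y₁, ⟨v₁, hv₁, hv₁'⟩, rfl⟩, ⟨y₂, ⟨v₂, hv₂, hv₂'⟩, rfl⟩⟩, rfl⟩
  refine ⟨Sum.elim y₁ y₂, ⟨v₁ * v₂ / w, div_ne_zero (mul_ne_zero hv₁ hv₂) hw, ?_⟩, ?_⟩
  · rw [map_mul, eval_C] at hv₁' hv₂'
    rw [map_mul, eval_C, eval_mulS, div_pow, mul_pow, hv₁', hv₂', hwz]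
    have hne : e * (eval z₁ f₁ * eval z₂ f₂) ≠ 0 := by
      rw [← hwz]
      exact pow_ne_zero 2 hw
    have a1 := left_ne_zero_of_mul hne
    have a2 := left_ne_zero_of_mul (right_ne_zero_of_mul hne)
    have a3 := right_ne_zero_of_mul (right_ne_zero_of_mul hne)
    field_simp
  · funext k
    rcases k with k | k <;> rfl

theorem rb_mul {f₁ : MvPolynomial ι₁ ℚ} {f₂ : MvPolynomial ι₂ ℚ}
    (h1 : RB f₁) (h2 : RB f₂) : RB (mulS f₁ f₂) := by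
  obtain ⟨E₁, hE₁, h1⟩ := h1
  obtain ⟨E₂, hE₂, h2⟩ := h2
  refine ⟨(fun q : (Set ι₁ × (ι₁ → ℚ)) × (Set ι₂ × (ι₂ → ℚ)) =>
    ((Sum.inl '' q.1.1 ∪ Sum.inr '' q.2.1 : Set (ι₁ ⊕ ι₂)), Sum.elim q.1.2 q.2.2)) '' (E₁ ×ˢ E₂),
    (hE₁.prod hE₂).image _, ?_⟩
  intro e he z hz
  obtain ⟨w, hw, hw2⟩ := hz
  rw [← elim_eta z] at hw2 ⊢
  set z₁ : ι₁ → ℚ := fun i => z (Sum.inl i) with hz₁
  set z₂ : ι₂ → ℚ := fun i => z (Sum.inr i) with hz₂
  have hwz : w ^ 2 = e * (eval z₁ f₁ * eval z₂ f₂) := by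
    rw [hw2, map_mul, eval_C, eval_mulS]
  have hne1 : eval z₁ f₁ ≠ 0 := by
    intro h
    rw [h, zero_mul, mul_zero] at hwz
    exact hw (pow_eq_zero_iff two_ne_zero |>.1 hwz)
  have hne2 : eval z₂ f₂ ≠ 0 := by
    intro h
    rw [h, mul_zero, mul_zero] at hwz
    exact hw (pow_eq_zero_iff two_ne_zero |>.1 hwz)
  obtain ⟨q₁, hq₁, a1, a2⟩ := h1 (e * eval z₂ f₂) (mul_ne_zero he hne2) z₁ ⟨w, hw, by
    rw [map_mul, eval_C, hwz]
    ring⟩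
  obtain ⟨q₂, hq₂, b1, b2⟩ := h2 (e * eval z₁ f₁) (mul_ne_zero he hne1) z₂ ⟨w, hw, by
    rw [map_mul, eval_C, hwz]
    ring⟩
  refine ⟨_, ⟨(q₁, q₂), ⟨hq₁, hq₂⟩, rfl⟩, ?_, rr_mul hw hwz a2 b2⟩
  rintro (k | k) hk
  · exact a1 k fun h => hk (Or.inl ⟨k, h, rfl⟩)
  · exact b1 k fun h => hk (Or.inr ⟨k, h, rfl⟩)

end

section

variable {ι ι' : Type} (E : ι ≃ ι')

theorem ss_ren {f : MvPolynomial ι ℚ} {z : ι' → ℚ} : z ∈ SS (rename E f) ↔ (z ∘ E) ∈ SS f := by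
  unfold SS
  simp only [Set.mem_ofPred_eq, eval_rename]

theorem rr_ren {f : MvPolynomial ι ℚ} {J : Set ι} {z : ι' → ℚ} (h : RR f J (z ∘ E)) :
    RR (rename E f) (E '' J) z := by
  intro U hU x hx
  have hB : Box f J (z ∘ E) (fun k => U (E k)) := by
    refine ⟨fun k => hU.opn _, fun k => hU.con _, fun k => hU.mem _, fun x' hx' => ?_⟩
    have h1 := hU.pos (x' ∘ E.symm) (by
      constructor
      · rintro _ ⟨k, hk, rfl⟩
        show x' (E.symm (E k)) ∈ _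
        rw [Equiv.symm_apply_apply]
        exact hx'.1 k hk
      · intro k hk
        have h2 := hx'.2 (E.symm k) (fun h => hk ⟨_, h, by simp⟩)
        simpa using h2)
    rw [aeval_rename] at h1
    have h3 : (x' ∘ E.symm) ∘ E = x' := by
      funext k
      simp
    rwa [h3] at h1
  have hx' := h _ hB (x ∘ E) ⟨fun k hk => hx.1 _ ⟨k, hk, rfl⟩, fun k hk => hx.2 (E k) (by
    rintro ⟨k', hk', h4⟩
    rw [E.injective h4] at hk'
    exact hk hk')⟩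
  have hc : Continuous fun y : ι → ℝ => (y ∘ E.symm : ι' → ℝ) :=
    continuous_pi fun k => continuous_apply _
  have h3 := image_closure_subset_closure_image hc ⟨_, hx', rfl⟩
  have h4 : (x ∘ E) ∘ E.symm = x := by
    funext k
    simp
  change (x ∘ E) ∘ E.symm ∈ _ at h3
  rw [h4] at h3
  refine closure_mono ?_ h3
  rintro _ ⟨_, ⟨r, hr, rfl⟩, rfl⟩
  refine ⟨r ∘ E.symm, (ss_ren E).2 ?_, rfl⟩
  have h5 : (r ∘ E.symm) ∘ E = r := by
    funext k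
    simp
  rwa [h5]

theorem rb_ren {f : MvPolynomial ι ℚ} (h : RB f) : RB (rename E f) := by
  obtain ⟨T, hT, h⟩ := h
  refine ⟨(fun q : Set ι × (ι → ℚ) => (E '' q.1, q.2 ∘ E.symm)) '' T, hT.image _, ?_⟩
  intro e he z hz
  have e1 : C e * rename E f = rename E (C e * f) := by
    rw [map_mul, rename_C]
  rw [e1] at hz ⊢
  obtain ⟨q, hq, h1, h2⟩ := h e he _ ((ss_ren E).1 hz)
  refine ⟨_, ⟨q, hq, rfl⟩, ?_, rr_ren E h2⟩
  intro k hk
  have h3 := h1 (E.symm k) (fun h => hk ⟨_, h, by simp⟩)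
  simpa using h3

end

theorem rb_prod : ∀ {r : ℕ} {ι : Fin r → Type} (f : ∀ b, MvPolynomial (ι b) ℚ),
    (∀ b, RB (f b)) → RB (prodS f)
  | 0, ι, f, _ => by
    refine ⟨{(∅, 0)}, Set.finite_singleton _, ?_⟩
    intro e he z hz
    refine ⟨_, rfl, fun k => k.1.elim0, rr_point hz⟩
  | r + 1, ι, f, h => by
    rw [prodS_succ]
    exact rb_ren _ (rb_mul (h 0) (rb_prod (fun b : Fin r => f b.succ) fun b => h b.succ))

end Pool.Agent.U199.RS
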