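import Pool.Agent.U199.RS.Prod
import Pool.Agent.Y718.Box

/-!
# From the density in boxes to semialgebraic closures
-/

set_option autoImplicit false
set_option linter.unusedSectionVars false

namespace Pool.Agent.U199.RS

open MvPolynomial Pool.Agent.TH729.SQ Pool.Agent.H581R2 Filter Topology

section

variable {ι : Type}

/-- the real points of the plane `q` where `f` is positive -/
def VQ (f : MvPolynomial ι ℚ) (q : Set ι × (ι → ℚ)) : Set (ι → ℝ) :=
  {x | (∀ k, k ∉ q.1 → x k = (q.2 k : ℝ)) ∧ (0 : ℝ) < aeval x f}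

/-- close points of the plane are in the closure -/
def OQ (f : MvPolynomial ι ℚ) (q : Set ι × (ι → ℚ)) : Set (ι → ℝ) :=
  {x | ∀ᶠ x' in 𝓝 x, (∀ k, k ∉ q.1 → x' k = (q.2 k : ℝ)) → x' ∈ closure (rl (SS f))}

theorem oq_open (f : MvPolynomial ι ℚ) (q : Set ι × (ι → ℚ)) : IsOpen (OQ f q) :=
  isOpen_setOfPred_eventually_nhds

theorem pos_ss [Finite ι] {f : MvPolynomial ι ℚ} {z : ι → ℚ} (hz : z ∈ SS f) :
    (0 : ℝ) < aeval (fun k => (z k : ℝ)) f := by
  obtain ⟨w, hw, hw2⟩ := hz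
  rw [aeval_cast, ← hw2]
  push_cast
  have : (w : ℝ) ≠ 0 := by exact_mod_cast hw
  positivity

variable [Fintype ι]

theorem ball_box {f : MvPolynomial ι ℚ} {x : ι → ℝ} {δ : ℝ}
    (hδ1 : ∀ y : ι → ℝ, (∀ k, |y k - x k| < δ) → (0 : ℝ) < aeval y f) {J : Set ι} {z : ι → ℚ}
    (hz : ∀ k, |(z k : ℝ) - x k| < δ) : Box f J z (fun k => Metric.ball (x k) δ) := by
  refine ⟨fun k => Metric.isOpen_ball, fun k => (convex_ball _ _).isPreconnected, fun k => ?_,
    fun y hy => hδ1 y fun k => ?_⟩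
  · rw [Metric.mem_ball, Real.dist_eq]
    exact hz k
  · by_cases hk : k ∈ J
    · have := hy.1 k hk
      rwa [Metric.mem_ball, Real.dist_eq] at this
    · rw [hy.2 k hk]
      exact hz k

theorem exists_ball {f : MvPolynomial ι ℚ} {x : ι → ℝ} (hx : (0 : ℝ) < aeval x f) :
    ∃ δ : ℝ, 0 < δ ∧ ∀ y : ι → ℝ, (∀ k, |y k - x k| < δ) → (0 : ℝ) < aeval y f := by
  obtain ⟨δ, hδ, h⟩ := Metric.isOpen_iff.1 (isOpen_lt continuous_const (continuous_aeval f)) x hx
  refine ⟨δ, hδ, fun y hy => h ?_⟩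
  rw [Metric.mem_ball, dist_pi_lt_iff hδ]
  intro k
  rw [Real.dist_eq]
  exact hy k

theorem ss_oq {f : MvPolynomial ι ℚ} {q : Set ι × (ι → ℚ)} {z : ι → ℚ} (hz : z ∈ SS f)
    (hq : ∀ k, k ∉ q.1 → z k = q.2 k) (hR : RR f q.1 z) : (fun k => (z k : ℝ)) ∈ OQ f q := by
  obtain ⟨δ, hδ, hδ1⟩ := exists_ball (pos_ss hz)
  have hB : Box f q.1 z (fun k => Metric.ball (z k : ℝ) δ) := ball_box hδ1 fun k => by
    rw [sub_self, abs_zero]
    exact hδ
  refine Filter.mem_of_superset (Metric.ball_mem_nhds _ hδ) ?_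
  intro y hy hyq
  refine hR _ hB y ⟨fun k _ => ?_, fun k hk => ?_⟩
  · rw [Metric.mem_ball, dist_pi_lt_iff hδ] at hy
    rw [Metric.mem_ball]
    exact hy k
  · rw [hyq k hk, hq k hk]

/-- **The set is relatively closed.** -/
theorem oq_closed {f : MvPolynomial ι ℚ} {E : Set (Set ι × (ι → ℚ))} (hE : E.Finite) (h : RP E f)
    {q : Set ι × (ι → ℚ)} {x : ι → ℝ} (hx : x ∈ VQ f q) (hcl : x ∈ closure (VQ f q ∩ OQ f q)) :
    x ∈ OQ f q := by
  classical
  obtain ⟨δ, hδ, hδ1⟩ := exists_ball hx.2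
  obtain ⟨x1, ⟨hx1V, hx1O⟩, hx1d⟩ := Metric.mem_closure_iff.1 hcl δ hδ
  rw [dist_comm, dist_pi_lt_iff hδ] at hx1d
  -- a small neighbourhood of `x1`
  have hx1n : ∀ᶠ y in 𝓝 x1, ∀ k, |y k - x k| < δ := by
    have : ∀ᶠ y in 𝓝 x1, y ∈ Metric.ball x δ := by
      refine Metric.isOpen_ball.mem_nhds ?_
      rw [Metric.mem_ball, dist_pi_lt_iff hδ]
      exact hx1d
    filter_upwards [this] with y hy
    rw [Metric.mem_ball, dist_pi_lt_iff hδ] at hy
    intro k
    have := hy k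
    rwa [Real.dist_eq] at this
  obtain ⟨η, hη, hη1⟩ := Metric.eventually_nhds_iff_ball.1 (hx1n.and hx1O)
  -- a general point of the plane
  have hgen : ∀ k, ∃ t : ℝ, |t - x1 k| < η ∧ (k ∈ q.1 → ∀ q' ∈ E, t ≠ (q'.2 k : ℝ)) ∧
      (k ∉ q.1 → t = (q.2 k : ℝ)) := by
    intro k
    by_cases hk : k ∈ q.1
    · have h1 : (Metric.ball (x1 k) η).Infinite :=
        infinite_of_mem_nhds _ (Metric.ball_mem_nhds _ hη)
      obtain ⟨t, ht1, ht2⟩ := (h1.sdiff (hE.image fun q' => (q'.2 k : ℝ))).nonempty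
      refine ⟨t, ?_, fun _ q' hq' h2 => ht2 ⟨q', hq', h2.symm⟩, fun h => absurd hk h⟩
      rwa [Metric.mem_ball, Real.dist_eq] at ht1
    · refine ⟨x1 k, ?_, fun h => absurd h hk, fun _ => hx1V.1 k hk⟩
      rw [sub_self, abs_zero]
      exact hη
  choose y hy1 hy2 hy3 using hgen
  have hyb : y ∈ Metric.ball x1 η := by
    rw [Metric.mem_ball, dist_pi_lt_iff hη]
    intro k
    rw [Real.dist_eq]
    exact hy1 k
  obtain ⟨hyx, hyO⟩ := hη1 y hyb
  have hycl := hyO fun k hk => hy3 k hk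
  -- planes which do not contain `y`
  have hpl : ∀ᶠ y' in 𝓝 y, (∀ q' ∈ E, (∀ k, k ∉ q'.1 → y' k = (q'.2 k : ℝ)) →
      ∀ k, k ∉ q'.1 → y k = (q'.2 k : ℝ)) ∧ ∀ k, |y' k - x k| < δ := by
    refine Filter.Eventually.and ?_ ?_
    · rw [hE.eventually_all]
      intro q' _
      by_cases hyq : ∀ k, k ∉ q'.1 → y k = (q'.2 k : ℝ)
      · exact Filter.Eventually.of_forall fun _ _ => hyq
      · push Not at hyq
        obtain ⟨k, hk, hk2⟩ := hyq
        have h2 : ∀ᶠ y' : ι → ℝ in 𝓝 y, y' k ≠ (q'.2 k : ℝ) :=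
          (continuous_apply k).continuousAt.eventually_ne hk2
        filter_upwards [h2] with y' hy' h3
        exact absurd (h3 k hk) hy'
    · have h2 : y ∈ Metric.ball x δ := by
        rw [Metric.mem_ball, dist_pi_lt_iff hδ]
        intro k
        rw [Real.dist_eq]
        exact hyx k
      filter_upwards [Metric.isOpen_ball.mem_nhds h2] with y' hy'
      rw [Metric.mem_ball, dist_pi_lt_iff hδ] at hy'
      intro k
      have := hy' k
      rwa [Real.dist_eq] at this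
  obtain ⟨_, ⟨hp1, hp2⟩, z, hz, rfl⟩ :=
    mem_closure_iff_nhds.1 hycl _ hpl
  obtain ⟨q', hq', hzq, hR⟩ := h z hz
  have hyq' := hp1 q' hq' (fun k hk => congrArg (fun r : ℚ => (r : ℝ)) (hzq k hk))
  have hsub : ∀ k, k ∉ q'.1 → k ∉ q.1 := by
    intro k hk hkq
    exact hy2 k hkq q' hq' (hyq' k hk)
  have hB : Box f q'.1 z (fun k => Metric.ball (x k) δ) := ball_box hδ1 hp2
  refine Filter.mem_of_superset (Metric.ball_mem_nhds x hδ) ?_
  intro y' hy' hyq
  rw [Metric.mem_ball, dist_pi_lt_iff hδ] at hy'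
  refine hR _ hB y' ⟨fun k _ => ?_, fun k hk => ?_⟩
  · rw [Metric.mem_ball]
    exact hy' k
  · rw [hyq k (hsub k hk), ← hy3 k (hsub k hk), hyq' k hk, hzq k hk]

theorem vq_sa (f : MvPolynomial ι ℚ) (q : Set ι × (ι → ℚ)) : SA (VQ f q) := by
  refine SAP.and ?_ (SAP.pos (PF.aeval f))
  refine SAP.forall_fin fun k => ?_
  by_cases hk : k ∈ q.1
  · exact SAP.congr (SAP.const True) fun v => by simp [hk]
  · exact SAP.congr (SAP.eq (PF.coord k) (PF.const (q.2 k))) fun v => by simp [hk]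

theorem wq_sa {f : MvPolynomial ι ℚ} {E : Set (Set ι × (ι → ℚ))} (hE : E.Finite) (h : RP E f)
    (q : Set ι × (ι → ℚ)) : SA (VQ f q ∩ OQ f q) := by
  refine sa_of_lc ι (VQ f q) _ (vq_sa f q) Set.inter_subset_left ?_
  refine LC.of_clopen (O := OQ f q) (C := closure (VQ f q ∩ OQ f q)) (oq_open f q) isClosed_closure
    ?_ ?_
  · intro x hx
    exact ⟨fun h => h.2, fun h => ⟨hx, h⟩⟩
  · intro x hx
    exact ⟨fun h => subset_closure h, fun hc => ⟨hx, oq_closed hE h hx hc⟩⟩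

/-- **The closure is semialgebraic.** -/
theorem sa_ss {f : MvPolynomial ι ℚ} {E : Set (Set ι × (ι → ℚ))} (hE : E.Finite) (h : RP E f) :
    SA (closure (rl (SS f))) := by
  have h1 : SA (⋃ q ∈ E, VQ f q ∩ OQ f q) := by
    refine Set.Finite.induction_on (motive := fun S _ => SA (⋃ q ∈ S, VQ f q ∩ OQ f q)) E hE ?_ ?_
    · rw [Set.biUnion_empty]
      exact SA.empty
    · intro a S _ _ ih
      rw [Set.biUnion_insert]
      exact (wq_sa hE h a).union ih
  have h2 : closure (rl (SS f)) = closure (⋃ q ∈ E, VQ f q ∩ OQ f q) := by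
    apply Set.Subset.antisymm
    · refine closure_mono ?_
      rintro _ ⟨z, hz, rfl⟩
      obtain ⟨q, hq, hq1, hR⟩ := h z hz
      rw [Set.mem_iUnion₂]
      exact ⟨q, hq, ⟨fun k hk => congrArg (fun r : ℚ => (r : ℝ)) (hq1 k hk), pos_ss hz⟩, ss_oq hz hq1 hR⟩
    · refine closure_minimal ?_ isClosed_closure
      intro x hx
      rw [Set.mem_iUnion₂] at hx
      obtain ⟨q, -, hV, hO⟩ := hx
      exact hO.self_of_nhds hV.1
  rw [h2]
  exact SA.closure h1

/-- **Connected sets.** -/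
theorem conn_ss {f : MvPolynomial ι ℚ} {E : Set (Set ι × (ι → ℚ))} (hE : E.Finite) (h : RP E f)
    {q : Set ι × (ι → ℚ)} {z : ι → ℚ} (hz : z ∈ SS f) (hq : ∀ k, k ∉ q.1 → z k = q.2 k)
    (hR : RR f q.1 z) {S : Set (ι → ℝ)} (hS : IsPreconnected S) (hSV : S ⊆ VQ f q)
    (hzS : (fun k => (z k : ℝ)) ∈ S) : S ⊆ closure (rl (SS f)) := by
  have hsub : S ⊆ OQ f q := by
    intro x hx
    by_contra hxO
    have h1 := hS (OQ f q) (closure (VQ f q ∩ OQ f q))ᶜ (oq_open f q) isClosed_closure.isOpen_compl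
      (by
        intro y hy
        by_cases hyO : y ∈ closure (VQ f q ∩ OQ f q)
        · exact Or.inl (oq_closed hE h (hSV hy) hyO)
        · exact Or.inr hyO) ⟨_, hzS, ss_oq hz hq hR⟩
      ⟨x, hx, fun hc => hxO (oq_closed hE h (hSV hx) hc)⟩
    obtain ⟨y, hy, hyO, hyc⟩ := h1
    exact hyc (subset_closure ⟨hSV hy, hyO⟩)
  intro x hx
  exact (hsub hx).self_of_nhds (hSV hx).1

end

end Pool.Agent.U199.RS
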