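import Pool.Agent.U199.RS.Typ
import Pool.Agent.U199.RS.Fin

/-!
# Arbitrary sets of twists
-/

set_option autoImplicit false
set_option linter.unusedSectionVars false

namespace Pool.Agent.U199.RS

open MvPolynomial Pool.Agent.TH729.SQ Pool.Agent.H581R2 Filter Topology

section

variable {ι : Type}

/-- boxes on which the condition `P` holds -/
structure BoxP (P : (ι → ℝ) → Prop) (J : Set ι) (z : ι → ℚ) (U : ι → Set ℝ) : Prop where
  opn : ∀ k, IsOpen (U k)
  con : ∀ k, IsPreconnected (U k)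
  mem : ∀ k, (z k : ℝ) ∈ U k
  pos : ∀ x, InB J z U x → P x

/-- the boxes at `z` are in the closure of `D` -/
def RQ (P : (ι → ℝ) → Prop) (D : Set (ι → ℚ)) (J : Set ι) (z : ι → ℚ) : Prop :=
  ∀ U, BoxP P J z U → ∀ x, InB J z U x → x ∈ closure (rl D)

/-- every point of `D` lies in one of the planes and its boxes are in the closure -/
def RE (E : Set (Set ι × (ι → ℚ))) (P : (ι → ℝ) → Prop) (D : Set (ι → ℚ)) : Prop :=
  ∀ z ∈ D, ∃ q ∈ E, (∀ k, k ∉ q.1 → z k = q.2 k) ∧ RQ P D q.1 z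

variable [Fintype ι] {P : (ι → ℝ) → Prop} {D : Set (ι → ℚ)}

theorem p_box {x : ι → ℝ} {δ : ℝ}
    (hδ1 : ∀ y : ι → ℝ, (∀ k, |y k - x k| < δ) → P y) {J : Set ι} {z : ι → ℚ}
    (hz : ∀ k, |(z k : ℝ) - x k| < δ) : BoxP P J z (fun k => Metric.ball (x k) δ) := by
  refine ⟨fun k => Metric.isOpen_ball, fun k => (convex_ball _ _).isPreconnected, fun k => ?_,
    fun y hy => hδ1 y fun k => ?_⟩
  · rw [Metric.mem_ball, Real.dist_eq]
    exact hz k
  · by_cases hk : k ∈ J
    · have := hy.1 k hk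
      rwa [Metric.mem_ball, Real.dist_eq] at this
    · rw [hy.2 k hk]
      exact hz k

theorem p_ball (hP : IsOpen {x | P x}) {x : ι → ℝ} (hx : P x) :
    ∃ δ : ℝ, 0 < δ ∧ ∀ y : ι → ℝ, (∀ k, |y k - x k| < δ) → P y := by
  obtain ⟨δ, hδ, h⟩ := Metric.isOpen_iff.1 hP x hx
  refine ⟨δ, hδ, fun y hy => h ?_⟩
  rw [Metric.mem_ball, dist_pi_lt_iff hδ]
  intro k
  rw [Real.dist_eq]
  exact hy k

/-- the real points of the plane `q` with the condition -/
def VP (P : (ι → ℝ) → Prop) (q : Set ι × (ι → ℚ)) : Set (ι → ℝ) :=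
  {x | (∀ k, k ∉ q.1 → x k = (q.2 k : ℝ)) ∧ P x}

/-- close points of the plane are in the closure -/
def OP (D : Set (ι → ℚ)) (q : Set ι × (ι → ℚ)) : Set (ι → ℝ) :=
  {x | ∀ᶠ x' in 𝓝 x, (∀ k, k ∉ q.1 → x' k = (q.2 k : ℝ)) → x' ∈ closure (rl D)}

theorem op_open (D : Set (ι → ℚ)) (q : Set ι × (ι → ℚ)) : IsOpen (OP D q) :=
  isOpen_setOfPred_eventually_nhds

theorem d_op (hP : IsOpen {x | P x}) (hD : ∀ z ∈ D, P fun k => (z k : ℝ)) {q : Set ι × (ι → ℚ)}
    {z : ι → ℚ} (hz : z ∈ D) (hq : ∀ k, k ∉ q.1 → z k = q.2 k) (hR : RQ P D q.1 z) :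
    (fun k => (z k : ℝ)) ∈ OP D q := by
  obtain ⟨δ, hδ, hδ1⟩ := p_ball hP (hD z hz)
  have hB : BoxP P q.1 z (fun k => Metric.ball (z k : ℝ) δ) := p_box hδ1 fun k => by
    rw [sub_self, abs_zero]
    exact hδ
  refine Filter.mem_of_superset (Metric.ball_mem_nhds _ hδ) ?_
  intro y hy hyq
  refine hR _ hB y ⟨fun k _ => ?_, fun k hk => ?_⟩
  · rw [Metric.mem_ball, dist_pi_lt_iff hδ] at hy
    rw [Metric.mem_ball]
    exact hy k
  · rw [hyq k hk, hq k hk]

/-- **The set is relatively closed.** -/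
theorem op_closed (hP : IsOpen {x | P x}) {E : Set (Set ι × (ι → ℚ))} (hE : E.Finite) (h : RE E P D)
    {q : Set ι × (ι → ℚ)} {x : ι → ℝ} (hx : x ∈ VP P q) (hcl : x ∈ closure (VP P q ∩ OP D q)) :
    x ∈ OP D q := by
  classical
  obtain ⟨δ, hδ, hδ1⟩ := p_ball hP hx.2
  obtain ⟨x1, ⟨hx1V, hx1O⟩, hx1d⟩ := Metric.mem_closure_iff.1 hcl δ hδ
  rw [dist_comm, dist_pi_lt_iff hδ] at hx1d
  have hx1n : ∀ᶠ y in 𝓝 x1, ∀ k, |y k - x k| < δ := by
    have : ∀ᶠ y in 𝓝 x1, y ∈ Metric.ball x δ := by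
      refine Metric.isOpen_ball.mem_nhds ?_
      rw [Metric.mem_ball, dist_pi_lt_iff hδ]
      exact hx1d
    filter_upwards [this] with y hy
    rw [Metric.mem_ball, dist_pi_lt_iff hδ] at hy
    intro k
    have := hy k
    rwa [Real.dist_eq] at this
  obtain ⟨η, hη, hη1⟩ := Metric.eventually_nhds_iff_ball.1 (hx1n.and hx1O)
  have hgen : ∀ k, ∃ t : ℝ, |t - x1 k| < η ∧ (k ∈ q.1 → ∀ q' ∈ E, t ≠ (q'.2 k : ℝ)) ∧
      (k ∉ q.1 → t = (q.2 k : ℝ)) := by
    intro k
    by_cases hk : k ∈ q.1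
    · have h1 : (Metric.ball (x1 k) η).Infinite :=
        infinite_of_mem_nhds _ (Metric.ball_mem_nhds _ hη)
      obtain ⟨t, ht1, ht2⟩ := (h1.sdiff (hE.image fun q' => (q'.2 k : ℝ))).nonempty
      refine ⟨t, ?_, fun _ q' hq' h2 => ht2 ⟨q', hq', h2.symm⟩, fun h => absurd hk h⟩
      rwa [Metric.mem_ball, Real.dist_eq] at ht1
    · refine ⟨x1 k, ?_, fun h => absurd h hk, fun _ => hx1V.1 k hk⟩
      rw [sub_self, abs_zero]
      exact hη
  choose y hy1 hy2 hy3 using hgen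
  have hyb : y ∈ Metric.ball x1 η := by
    rw [Metric.mem_ball, dist_pi_lt_iff hη]
    intro k
    rw [Real.dist_eq]
    exact hy1 k
  obtain ⟨hyx, hyO⟩ := hη1 y hyb
  have hycl := hyO fun k hk => hy3 k hk
  have hpl : ∀ᶠ y' in 𝓝 y, (∀ q' ∈ E, (∀ k, k ∉ q'.1 → y' k = (q'.2 k : ℝ)) →
      ∀ k, k ∉ q'.1 → y k = (q'.2 k : ℝ)) ∧ ∀ k, |y' k - x k| < δ := by
    refine Filter.Eventually.and ?_ ?_
    · rw [hE.eventually_all]
      intro q' _
      by_cases hyq : ∀ k, k ∉ q'.1 → y k = (q'.2 k : ℝ)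
      · exact Filter.Eventually.of_forall fun _ _ => hyq
      · push Not at hyq
        obtain ⟨k, hk, hk2⟩ := hyq
        have h2 : ∀ᶠ y' : ι → ℝ in 𝓝 y, y' k ≠ (q'.2 k : ℝ) :=
          (continuous_apply k).continuousAt.eventually_ne hk2
        filter_upwards [h2] with y' hy' h3
        exact absurd (h3 k hk) hy'
    · have h2 : y ∈ Metric.ball x δ := by
        rw [Metric.mem_ball, dist_pi_lt_iff hδ]
        intro k
        rw [Real.dist_eq]
        exact hyx k
      filter_upwards [Metric.isOpen_ball.mem_nhds h2] with y' hy'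
      rw [Metric.mem_ball, dist_pi_lt_iff hδ] at hy'
      intro k
      have := hy' k
      rwa [Real.dist_eq] at this
  obtain ⟨_, ⟨hp1, hp2⟩, z, hz, rfl⟩ :=
    mem_closure_iff_nhds.1 hycl _ hpl
  obtain ⟨q', hq', hzq, hR⟩ := h z hz
  have hyq' := hp1 q' hq' (fun k hk => congrArg (fun r : ℚ => (r : ℝ)) (hzq k hk))
  have hsub : ∀ k, k ∉ q'.1 → k ∉ q.1 := by
    intro k hk hkq
    exact hy2 k hkq q' hq' (hyq' k hk)
  have hB : BoxP P q'.1 z (fun k => Metric.ball (x k) δ) := p_box hδ1 hp2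
  refine Filter.mem_of_superset (Metric.ball_mem_nhds x hδ) ?_
  intro y' hy' hyq
  rw [Metric.mem_ball, dist_pi_lt_iff hδ] at hy'
  refine hR _ hB y' ⟨fun k _ => ?_, fun k hk => ?_⟩
  · rw [Metric.mem_ball]
    exact hy' k
  · rw [hyq k (hsub k hk), ← hy3 k (hsub k hk), hyq' k hk, hzq k hk]

theorem vp_sa (hS : SAP P) (q : Set ι × (ι → ℚ)) : SA (VP P q) := by
  refine SAP.and ?_ hS
  refine SAP.forall_fin fun k => ?_
  by_cases hk : k ∈ q.1
  · exact SAP.congr (SAP.const True) fun v => by simp [hk]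
  · exact SAP.congr (SAP.eq (PF.coord k) (PF.const (q.2 k))) fun v => by simp [hk]

theorem wp_sa (hP : IsOpen {x | P x}) (hS : SAP P) {E : Set (Set ι × (ι → ℚ))} (hE : E.Finite)
    (h : RE E P D) (q : Set ι × (ι → ℚ)) : SA (VP P q ∩ OP D q) := by
  refine sa_of_lc ι (VP P q) _ (vp_sa hS q) Set.inter_subset_left ?_
  refine LC.of_clopen (O := OP D q) (C := closure (VP P q ∩ OP D q)) (op_open D q) isClosed_closure
    ?_ ?_
  · intro x hx
    exact ⟨fun h => h.2, fun h => ⟨hx, h⟩⟩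
  · intro x hx
    exact ⟨fun h => subset_closure h, fun hc => ⟨hx, op_closed hP hE h hx hc⟩⟩

/-- **The closure is semialgebraic.** -/
theorem sa_re (hP : IsOpen {x | P x}) (hS : SAP P) (hD : ∀ z ∈ D, P fun k => (z k : ℝ))
    {E : Set (Set ι × (ι → ℚ))} (hE : E.Finite) (h : RE E P D) : SA (closure (rl D)) := by
  have h1 : SA (⋃ q ∈ E, VP P q ∩ OP D q) := by
    refine Set.Finite.induction_on (motive := fun S _ => SA (⋃ q ∈ S, VP P q ∩ OP D q)) E hE ?_ ?_
    · rw [Set.biUnion_empty]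
      exact SA.empty
    · intro a S _ _ ih
      rw [Set.biUnion_insert]
      exact (wp_sa hP hS hE h a).union ih
  have h2 : closure (rl D) = closure (⋃ q ∈ E, VP P q ∩ OP D q) := by
    apply Set.Subset.antisymm
    · refine closure_mono ?_
      rintro _ ⟨z, hz, rfl⟩
      obtain ⟨q, hq, hq1, hR⟩ := h z hz
      rw [Set.mem_iUnion₂]
      exact ⟨q, hq, ⟨fun k hk => congrArg (fun r : ℚ => (r : ℝ)) (hq1 k hk), hD z hz⟩,
        d_op hP hD hz hq1 hR⟩
    · refine closure_minimal ?_ isClosed_closure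
      intro x hx
      rw [Set.mem_iUnion₂] at hx
      obtain ⟨q, -, hV, hO⟩ := hx
      exact hO.self_of_nhds hV.1
  rw [h2]
  exact SA.closure h1

/-- **Connected sets.** -/
theorem conn_re (hP : IsOpen {x | P x}) (hD : ∀ z ∈ D, P fun k => (z k : ℝ))
    {E : Set (Set ι × (ι → ℚ))} (hE : E.Finite) (h : RE E P D)
    {q : Set ι × (ι → ℚ)} {z : ι → ℚ} (hz : z ∈ D) (hq : ∀ k, k ∉ q.1 → z k = q.2 k)
    (hR : RQ P D q.1 z) {S : Set (ι → ℝ)} (hS : IsPreconnected S) (hSV : S ⊆ VP P q)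
    (hzS : (fun k => (z k : ℝ)) ∈ S) : S ⊆ closure (rl D) := by
  have hsub : S ⊆ OP D q := by
    intro x hx
    by_contra hxO
    have h1 := hS (OP D q) (closure (VP P q ∩ OP D q))ᶜ (op_open D q) isClosed_closure.isOpen_compl
      (by
        intro y hy
        by_cases hyO : y ∈ closure (VP P q ∩ OP D q)
        · exact Or.inl (op_closed hP hE h (hSV hy) hyO)
        · exact Or.inr hyO) ⟨_, hzS, d_op hP hD hz hq hR⟩
      ⟨x, hx, fun hc => hxO (op_closed hP hE h (hSV hx) hc)⟩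
    obtain ⟨y, hy, hyO, hyc⟩ := h1
    exact hyc (subset_closure ⟨hSV hy, hyO⟩)
  intro x hx
  exact (hsub hx).self_of_nhds (hSV hx).1

end

/-! ### Blocks of variables -/

section

variable {r : ℕ} {ι : Fin r → Type} [∀ b, Fintype (ι b)] (f : ∀ b, MvPolynomial (ι b) ℚ)

/-- the values of the factors at a rational point -/
noncomputable def vals (z : (Σ b, ι b) → ℚ) (b : Fin r) : ℚ := eval (fun i => z ⟨b, i⟩) (f b)

/-- no factor vanishes -/
def NV (x : (Σ b, ι b) → ℝ) : Prop := ∀ b, (aeval (fun i => x ⟨b, i⟩) (f b) : ℝ) ≠ 0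

/-- stable under multiplication by squares -/
def Stb (A : Set (Fin r → ℚ)) : Prop :=
  ∀ a ∈ A, ∀ c : Fin r → ℚ, (∀ b, c b ≠ 0) → (fun b => c b ^ 2 * a b) ∈ A

/-- the points whose classes are in `A` -/
def DA (A : Set (Fin r → ℚ)) : Set ((Σ b, ι b) → ℚ) := {z | (∀ b, vals f z b ≠ 0) ∧ vals f z ∈ A}

theorem nv_open : IsOpen {x : (Σ b, ι b) → ℝ | NV f x} := by
  have h : {x : (Σ b, ι b) → ℝ | NV f x} =
      ⋂ b, {x | (aeval (fun i => x ⟨b, i⟩) (f b) : ℝ) ≠ 0} := by
    ext x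
    simp [NV]
  rw [h]
  refine isOpen_iInter_of_finite fun b => isOpen_ne_fun ?_ continuous_const
  exact (Pool.Agent.TH729.SQ.continuous_aeval (f b)).comp
    (continuous_pi fun i => continuous_apply _)

theorem nv_sap : SAP (NV f) :=
  SAP.forall_fin fun b => (SAP.eq_zero (PF.comp (PF.aeval (f b)) fun i => PF.coord _)).not

theorem da_nv {A : Set (Fin r → ℚ)} : ∀ z ∈ DA f A, NV f fun k => (z k : ℝ) := by
  rintro z ⟨hz, -⟩ b
  have h1 := Pool.Agent.TH729.SQ.aeval_cast (fun i => z ⟨b, i⟩) (f b)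
  rw [h1]
  exact_mod_cast hz b

/-- a continuous function without zeros on a connected set -/
theorem pos_conn {α : Type} [TopologicalSpace α] {S : Set α} (hS : IsPreconnected S) {g : α → ℝ}
    (hg : Continuous g) (h0 : ∀ x ∈ S, g x ≠ 0) {a : α} (ha : a ∈ S) (hpos : 0 < g a) :
    ∀ x ∈ S, 0 < g x := by
  intro x hx
  by_contra hcon
  have h1 : g x < 0 := lt_of_le_of_ne (not_lt.1 hcon) (h0 x hx)
  obtain ⟨y, hy, hy0⟩ := hS.intermediate_value hx ha hg.continuousOn ⟨h1.le, hpos.le⟩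
  exact h0 y hy hy0

theorem inb_conn {κ : Type} {J : Set κ} {z : κ → ℚ} {U : κ → Set ℝ}
    (h : ∀ k, IsPreconnected (U k)) : IsPreconnected {x | InB J z U x} := by
  classical
  have h1 : {x | InB J z U x} = Set.univ.pi fun k => if k ∈ J then U k else {(z k : ℝ)} := by
    ext x
    constructor
    · intro hx k _
      by_cases hk : k ∈ J
      · simp only [hk, if_true]
        exact hx.1 k hk
      · simp only [hk, if_false]
        exact hx.2 k hk
    · intro hx
      refine ⟨fun k hk => ?_, fun k hk => ?_⟩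
      · have := hx k (Set.mem_univ k)
        simpa only [hk, if_true] using this
      · have := hx k (Set.mem_univ k)
        simp only [hk, if_false] at this
        exact this
  rw [h1]
  refine isPreconnected_univ_pi fun k => ?_
  by_cases hk : k ∈ J
  · simp only [hk, if_true]
    exact h k
  · simp only [hk, if_false]
    exact isPreconnected_singleton

theorem re_prod {f : ∀ b, MvPolynomial (ι b) ℚ} (h : ∀ b, RB (f b)) :
    ∃ E : Set (Set (Σ b, ι b) × ((Σ b, ι b) → ℚ)), E.Finite ∧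
      ∀ A : Set (Fin r → ℚ), Stb A → RE E (NV f) (DA f A) := by
  classical
  choose E hE h using h
  refine ⟨(fun q : ∀ b, Set (ι b) × (ι b → ℚ) => (({k | k.2 ∈ (q k.1).1} : Set (Σ b, ι b)),
    fun k => (q k.1).2 k.2)) '' (Set.univ.pi E), (Set.Finite.pi hE).image _, ?_⟩
  intro A hA z hz
  obtain ⟨hz0, hzA⟩ := hz
  have h1 : ∀ b, (fun i => z ⟨b, i⟩) ∈ SS (C (vals f z b) * f b) := by
    intro b
    refine ⟨vals f z b, hz0 b, ?_⟩
    rw [map_mul, eval_C, sq]
    rfl
  choose q hq hq1 hR using fun b => h b (vals f z b) (hz0 b) _ (h1 b)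
  refine ⟨_, ⟨q, fun b _ => hq b, rfl⟩, fun k hk => hq1 k.1 k.2 hk, ?_⟩
  intro U hU x hx
  -- the blocks of the box
  have hglue : ∀ (b : Fin r) (y : ι b → ℝ), InB (q b).1 (fun i => z ⟨b, i⟩) (fun i => U ⟨b, i⟩) y →
      InB {k : Σ b, ι b | k.2 ∈ (q k.1).1} z U
        (fun k => if h : k.1 = b then y (h ▸ k.2) else (z k : ℝ)) := by
    intro b y hy
    constructor
    · rintro ⟨b', i⟩ hk
      by_cases hb : b' = b
      · subst hb
        simp only [dif_pos]
        exact hy.1 i hk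
      · simp only [dif_neg hb]
        exact hU.mem _
    · rintro ⟨b', i⟩ hk
      by_cases hb : b' = b
      · subst hb
        simp only [dif_pos]
        exact hy.2 i hk
      · simp only [dif_neg hb]
  have hne : ∀ (b : Fin r) (y : ι b → ℝ), InB (q b).1 (fun i => z ⟨b, i⟩) (fun i => U ⟨b, i⟩) y →
      (aeval y (f b) : ℝ) ≠ 0 := by
    intro b y hy
    have h2 := hU.pos _ (hglue b y hy) b
    simpa only [dif_pos] using h2
  have hB : ∀ b, Box (C (vals f z b) * f b) (q b).1 (fun i => z ⟨b, i⟩) (fun i => U ⟨b, i⟩) := by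
    intro b
    refine ⟨fun i => hU.opn _, fun i => hU.con _, fun i => hU.mem _, ?_⟩
    have ha : (fun i => (z ⟨b, i⟩ : ℝ)) ∈ {y | InB (q b).1 (fun i => z ⟨b, i⟩)
        (fun i => U ⟨b, i⟩) y} := ⟨fun i _ => hU.mem _, fun i _ => rfl⟩
    refine pos_conn (inb_conn fun i => hU.con ⟨b, i⟩)
      (Pool.Agent.TH729.SQ.continuous_aeval (C (vals f z b) * f b)) ?_ ha ?_
    · intro y hy
      rw [aeval_Cmul]
      refine mul_ne_zero (by exact_mod_cast hz0 b) (hne b y hy)
    · exact pos_ss (h1 b)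
  have h2 : ∀ b, (fun i => x ⟨b, i⟩) ∈ closure (rl (SS (C (vals f z b) * f b))) := by
    intro b
    refine hR b _ (hB b) _ ⟨fun i hi => hx.1 ⟨b, i⟩ hi, fun i hi => hx.2 ⟨b, i⟩ hi⟩
  have h3 : (fun b i => x ⟨b, i⟩ : ∀ b, ι b → ℝ) ∈
      closure (Set.univ.pi fun b => rl (SS (C (vals f z b) * f b))) := by
    rw [closure_pi_set]
    intro b _
    exact h2 b
  have hc : Continuous fun (y : ∀ b, ι b → ℝ) (p : Σ b, ι b) => y p.1 p.2 :=
    continuous_pi fun p => (continuous_apply p.2).comp (continuous_apply p.1)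
  have h4 := image_closure_subset_closure_image hc ⟨_, h3, rfl⟩
  refine closure_mono ?_ h4
  rintro _ ⟨y, hy, rfl⟩
  choose v hv hvy using fun b => hy b (Set.mem_univ b)
  refine ⟨fun p => v p.1 p.2, ?_, ?_⟩
  · choose w hw hw2 using hv
    have h5 : ∀ b, vals f (fun p => v p.1 p.2) b = (w b / vals f z b) ^ 2 * vals f z b := by
      intro b
      have h6 := hw2 b
      rw [map_mul, eval_C] at h6
      have h7 := hz0 b
      have h8 : w b ^ 2 = vals f z b * vals f (fun p => v p.1 p.2) b := h6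
      field_simp
      linear_combination -h8
    constructor
    · intro b
      rw [h5]
      exact mul_ne_zero (pow_ne_zero _ (div_ne_zero (hw b) (hz0 b))) (hz0 b)
    · have h6 := hA _ hzA (fun b => w b / vals f z b) fun b => div_ne_zero (hw b) (hz0 b)
      have h7 : (fun b => (w b / vals f z b) ^ 2 * vals f z b) = vals f fun p => v p.1 p.2 :=
        funext fun b => (h5 b).symm
      rwa [h7] at h6
  · funext p
    exact congrFun (hvy p.1) p.2

end

/-! ### Several square roots -/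

section

variable {ι : Type}

/-- the rational points over a set `S` of parameters with square roots of the `g i` -/
def mup {s : ℕ} (g : Fin s → MvPolynomial ι ℚ) (S : Set (ι → ℚ)) : Set (Fin s ⊕ ι → ℚ) :=
  {u | (fun i => u (Sum.inr i)) ∈ S ∧ ∀ j, u (Sum.inl j) ^ 2 = eval (fun i => u (Sum.inr i)) (g j)}

theorem mup_closure [Fintype ι] {s : ℕ} (g : Fin s → MvPolynomial ι ℚ) {S : Set (ι → ℚ)}
    (hS : ∀ z ∈ S, ∀ j, ∃ w : ℚ, w ^ 2 = eval z (g j)) :
    closure (rl (mup g S)) = {x : Fin s ⊕ ι → ℝ | (fun k => x (Sum.inr k)) ∈ closure (rl S) ∧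
      ∀ j, x (Sum.inl j) ^ 2 = aeval (fun k => x (Sum.inr k)) (g j)} := by
  classical
  have hφc : ∀ j, Continuous fun z : ι → ℝ => (MvPolynomial.aeval z (g j) : ℝ) :=
    fun j => continuous_aeval (g j)
  have hsome : Continuous fun u : Fin s ⊕ ι → ℝ => fun i : ι => u (Sum.inr i) := by fun_prop
  apply Set.Subset.antisymm
  · refine closure_minimal ?_ ?_
    · rintro _ ⟨u, ⟨hu, hw⟩, rfl⟩
      refine ⟨subset_closure ⟨_, hu, rfl⟩, fun j => ?_⟩
      have h1 := Pool.Agent.TH729.SQ.aeval_cast (fun k => u (Sum.inr k)) (g j)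
      show ((u (Sum.inl j) : ℚ) : ℝ) ^ 2 =
        MvPolynomial.aeval (fun k : ι => ((u (Sum.inr k) : ℚ) : ℝ)) (g j)
      rw [h1, ← hw j]
      push_cast
      rfl
    · have h0 : IsClosed {x : Fin s ⊕ ι → ℝ | ∀ j, x (Sum.inl j) ^ 2 =
          aeval (fun k => x (Sum.inr k)) (g j)} := by
        have : {x : Fin s ⊕ ι → ℝ | ∀ j, x (Sum.inl j) ^ 2 =
            aeval (fun k => x (Sum.inr k)) (g j)} =
            ⋂ j, {x | x (Sum.inl j) ^ 2 = aeval (fun k => x (Sum.inr k)) (g j)} := by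
          ext x
          simp
        rw [this]
        exact isClosed_iInter fun j => isClosed_eq ((continuous_apply _).pow 2)
          ((hφc j).comp hsome)
      exact (isClosed_closure.preimage hsome).inter h0
  · rintro u ⟨hu1, hu2⟩
    obtain ⟨x, hx, hx'⟩ := mem_closure_iff_seq_limit.1 hu1
    choose z hz hzx using hx
    choose w hw using fun n j => hS (z n) (hz n) j
    have hφx : ∀ n j, (MvPolynomial.aeval (x n) (g j) : ℝ) = (w n j : ℝ) ^ 2 := by
      intro n j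
      rw [hzx n, Pool.Agent.TH729.SQ.aeval_cast, ← hw n j]
      push_cast
      rfl
    -- the square roots with the right signs
    set v : ℕ → Fin s → ℚ := fun n j => if 0 ≤ u (Sum.inl j) then |w n j| else -|w n j| with hv
    have hlim : ∀ j, Tendsto (fun n => ((v n j : ℚ) : ℝ)) atTop (𝓝 (u (Sum.inl j))) := by
      intro j
      have h1 : Tendsto (fun n => Real.sqrt (MvPolynomial.aeval (x n) (g j))) atTop
          (𝓝 (Real.sqrt (MvPolynomial.aeval (fun i => u (Sum.inr i)) (g j)))) :=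
        ((Real.continuous_sqrt.comp (hφc j)).tendsto _).comp hx'
      have h2 : Real.sqrt (MvPolynomial.aeval (fun i => u (Sum.inr i)) (g j)) =
          |u (Sum.inl j)| := by
        rw [← hu2 j, Real.sqrt_sq_eq_abs]
      rw [h2] at h1
      have h3 : ∀ n, Real.sqrt (MvPolynomial.aeval (x n) (g j)) = |(w n j : ℝ)| := by
        intro n
        rw [hφx, Real.sqrt_sq_eq_abs]
      by_cases h0 : 0 ≤ u (Sum.inl j)
      · rw [abs_of_nonneg h0] at h1
        refine h1.congr fun n => ?_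
        rw [h3, hv]
        simp only [h0, if_true, Rat.cast_abs]
      · have h4 := h1.neg
        rw [abs_of_neg (not_le.1 h0), neg_neg] at h4
        refine h4.congr fun n => ?_
        rw [h3, hv]
        simp only [h0, if_false, Rat.cast_neg, Rat.cast_abs]
    have hpi : Tendsto (fun n => (Sum.elim (fun j => ((v n j : ℚ) : ℝ)) (x n) : Fin s ⊕ ι → ℝ))
        atTop (𝓝 u) := by
      rw [tendsto_pi_nhds]
      intro o
      rcases o with j | i
      · exact hlim j
      · exact (tendsto_pi_nhds.1 hx') i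
    refine mem_closure_of_tendsto hpi (Eventually.of_forall fun n => ?_)
    refine ⟨Sum.elim (v n) (z n), ⟨?_, ?_⟩, ?_⟩
    · exact hz n
    · intro j
      show v n j ^ 2 = eval (z n) (g j)
      rw [hv, ← hw n j]
      by_cases h0 : 0 ≤ u (Sum.inl j)
      · simp only [h0, if_true, sq_abs]
      · simp only [h0, if_false, neg_sq, sq_abs]
    · funext o
      rcases o with j | i
      · rfl
      · exact congrFun (hzx n) i

theorem mup_SA [Fintype ι] {s : ℕ} (g : Fin s → MvPolynomial ι ℚ) {S : Set (ι → ℚ)}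
    (hS : ∀ z ∈ S, ∀ j, ∃ w : ℚ, w ^ 2 = eval z (g j)) (h : SA (closure (rl S))) :
    SA (closure (rl (mup g S))) := by
  rw [mup_closure g hS]
  refine SAP.and ?_ (SAP.forall_fin fun j => SAP.eq ((PF.coord (Sum.inl j)).pow 2) ?_)
  · exact SAP.preimage (p := fun v => v ∈ closure (rl S)) h (fun i => PF.coord (Sum.inr i))
  · exact PF.comp (PF.aeval (g j)) (fun i => PF.coord (Sum.inr i))

end

end Pool.Agent.U199.RS
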