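import Pool.Agent.U199.RS.Prod
import Pool.Agent.Y718.Quart
import Pool.Agent.Y718.GX

/-!
# Real density in boxes: further kinds of factors
-/

set_option autoImplicit false
set_option linter.unusedSectionVars false

namespace Pool.Agent.U199.RS

open MvPolynomial Pool.Agent.Y720.MZ Pool.Agent.Q35.TT Pool.Agent.TH729.SQ Pool.Agent.U199.TW
  Filter Topology

section

variable {n : ℕ}

/-- relatively open and closed sets -/
theorem rr_of_conn {f : MvPolynomial (Fin n) ℚ} {z : Fin n → ℚ}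
    (h : ∀ S : Set (Fin n → ℝ), IsPreconnected S → (∀ x ∈ S, (0 : ℝ) < aeval x f) →
      (fun i => (z i : ℝ)) ∈ S → S ⊆ closure (rl (SS f))) : RR f Set.univ z := by
  intro U hU x hx
  refine h (Set.univ.pi U) (isPreconnected_univ_pi fun k => hU.con k) (fun y hy => hU.pos y
    ⟨fun k _ => hy k (Set.mem_univ k), fun k hk => absurd (Set.mem_univ k) hk⟩)
    (fun k _ => hU.mem k) fun k _ => hx.1 k (Set.mem_univ k)

theorem conn_of_open {f : MvPolynomial (Fin n) ℚ} {T : Set (Fin n → ℚ)}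
    (ho : ∀ x ∈ closure (rl T), (0 : ℝ) < aeval x f → closure (rl T) ∈ 𝓝 x)
    {S : Set (Fin n → ℝ)} (hS : IsPreconnected S) (hpos : ∀ x ∈ S, (0 : ℝ) < aeval x f)
    {x : Fin n → ℝ} (hx : x ∈ S) (hxT : x ∈ closure (rl T)) : S ⊆ closure (rl T) := by
  have hcov : S ⊆ interior (closure (rl T)) ∪ (closure (rl T))ᶜ := by
    intro y hy
    by_cases hyT : y ∈ closure (rl T)
    · exact Or.inl (mem_interior_iff_mem_nhds.mpr (ho y hyT (hpos y hy)))
    · exact Or.inr hyT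
  rcases hS.subset_or_subset isOpen_interior isClosed_closure.isOpen_compl
    (Set.disjoint_compl_right_iff_subset.mpr interior_subset) hcov with h | h
  · exact h.trans interior_subset
  · exact absurd hxT (h hx)

/-- Only the whole space is needed. -/
theorem rb_of {f : MvPolynomial (Fin n) ℚ} {T : Set (Fin n → ℚ)} (hT : T.Finite)
    (h : ∀ e : ℚ, e ≠ 0 → ∀ z ∈ SS (C e * f), z ∉ T → RR (C e * f) Set.univ z) : RB f := by
  refine ⟨(fun z => ((∅ : Set (Fin n)), z)) '' T ∪ {(Set.univ, 0)},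
    (hT.image _).union (Set.finite_singleton _), ?_⟩
  intro e he z hz
  by_cases hzT : z ∈ T
  · exact ⟨_, Or.inl ⟨z, hzT, rfl⟩, fun _ _ => rfl, rr_point hz⟩
  · exact ⟨_, Or.inr rfl, fun k hk => absurd (Set.mem_univ k) hk, h e he z hz hzT⟩

/-! ### Degree two in the directions of a basis -/

theorem lk_Cmul (e : ℚ) (f : MvPolynomial (Fin n) ℚ) (z u : Fin n → ℚ) :
    Pool.Agent.Y718.X.lk (C e * f) z u = Polynomial.C e * Pool.Agent.Y718.X.lk f z u := by
  unfold Pool.Agent.Y718.X.lk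
  rw [map_mul, aeval_C]
  rfl

theorem rb_dir {f : MvPolynomial (Fin n) ℚ} (b : Fin n → Fin n → ℚ) (hb : LinearIndependent ℚ b)
    (h : ∀ k, Pool.Agent.Y718.X.DegLe f (b k) 2) : RB f := by
  refine rb_of Set.finite_empty fun e he z hz _ => rr_of_conn fun S hS hpos hzS => ?_
  have hd : ∀ k, Pool.Agent.Y718.X.DegLe (C e * f) (b k) 2 := by
    intro k y
    rw [lk_Cmul]
    exact (Polynomial.natDegree_C_mul_le _ _).trans (h k y)
  have h1 := Pool.Agent.Y718.X.TN_conn (f := C e * f) (z := z)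
    ⟨hz, b, hb, fun k => ⟨fun y => (hd k y).trans (by norm_num), Or.inl (hd k)⟩⟩ hS hpos hzS
  refine h1.trans (closure_mono ?_)
  rintro _ ⟨y, hy, rfl⟩
  exact ⟨y, hy.1, rfl⟩

/-! ### Smooth quartic forms -/

open Pool.Agent.Y718 Pool.Agent.Y718.SF in
theorem FR_Cmul (e : ℚ) (F : MvPolynomial (Fin (n + 1)) ℚ) : FR (C e * F) = C (e : ℝ) * FR F := by
  unfold FR
  rw [map_mul, map_C]
  rfl

open Pool.Agent.Y718 Pool.Agent.Y718.SF in
theorem lg_Cmul (e : ℝ) (F : MvPolynomial (Fin (n + 1)) ℝ) (Z U : Fin (n + 1) → ℝ) :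
    SF.lg (C e * F) Z U = Polynomial.C e * SF.lg F Z U := by
  unfold SF.lg
  rw [map_mul, aeval_C]
  rfl

open Pool.Agent.Y718 Pool.Agent.Y718.SF in
theorem gB_Cmul (e : ℝ) (q : Polynomial ℝ) : SF.gB (Polynomial.C e * q) = e ^ 3 * SF.gB q := by
  simp only [SF.gB, Polynomial.coeff_C_mul]
  ring

open Pool.Agent.Y718 Pool.Agent.Y718.SF in
theorem gT_Cmul (e : ℝ) (q : Polynomial ℝ) : SF.gT (Polynomial.C e * q) = e ^ 4 * SF.gT q := by
  simp only [SF.gT, Polynomial.coeff_C_mul]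
  ring

open Pool.Agent.Y718 Pool.Agent.Y718.SF in
theorem exc_Cmul {e : ℚ} (he : e ≠ 0) (F : MvPolynomial (Fin (n + 1)) ℚ) (p : Fin (n + 1)) :
    Exc (C e * F) p ⊆ Exc F p := by
  have heR : (e : ℝ) ≠ 0 := by exact_mod_cast he
  have hev : ∀ Z : Fin (n + 1) → ℝ, MvPolynomial.eval Z (FR (C e * F)) ≠ 0 →
      MvPolynomial.eval Z (FR F) ≠ 0 := by
    intro Z h h0
    rw [FR_Cmul, map_mul, h0, mul_zero] at h
    exact h rfl
  have hgB : ∀ Z U : Fin (n + 1) → ℝ, SF.gB (SF.lg (FR (C e * F)) Z U) = (e : ℝ) ^ 3 * SF.gB (SF.lg (FR F) Z U) := by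
    intro Z U
    rw [FR_Cmul, lg_Cmul, gB_Cmul]
  have hgT : ∀ Z U : Fin (n + 1) → ℝ, SF.gT (SF.lg (FR (C e * F)) Z U) = (e : ℝ) ^ 4 * SF.gT (SF.lg (FR F) Z U) := by
    intro Z U
    rw [FR_Cmul, lg_Cmul, gT_Cmul]
  rintro z (⟨h1, h2⟩ | ⟨l, h1, h2, h3⟩)
  · refine Or.inl ⟨hev _ h1, fun U => ?_⟩
    have h4 := h2 U
    rw [hgB] at h4
    exact (mul_eq_zero.1 h4).resolve_left (pow_ne_zero _ heR)
  · simp only [Sum.elim_inl, Sum.elim_inr] at h1 h2 h3
    refine Or.inr ⟨fun i => l i / e, ?_, ?_, ?_⟩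
    · simp only [Sum.elim_inl]
      exact hev _ h1
    · simp only [Sum.elim_inl]
      obtain ⟨U, hU⟩ := h2
      refine ⟨U, fun h0 => hU ?_⟩
      rw [hgB, h0, mul_zero]
    · simp only [Sum.elim_inl, Sum.elim_inr]
      intro U
      have h4 := h3 U
      rw [hgB, hgT] at h4
      have h5 : (∑ i, l i / (e : ℝ) * U i) = (∑ i, l i * U i) / e := by
        rw [Finset.sum_div]
        exact Finset.sum_congr rfl fun i _ => by ring
      rw [h5]
      have h6 : (e : ℝ) ^ 3 ≠ 0 := pow_ne_zero _ heR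
      field_simp
      have h7 : (e : ℝ) ^ 3 * (e * SF.gT (SF.lg (FR F) (ic p 1 fun j => (z j : ℝ)) U)) =
          e ^ 3 * ((∑ i, l i * U i) * SF.gB (SF.lg (FR F) (ic p 1 fun j => (z j : ℝ)) U)) := by
        linear_combination h4
      have h8 := mul_left_cancel₀ h6 h7
      linear_combination h8

open Pool.Agent.Y718 Pool.Agent.Y718.SF in
theorem rb_quart {F : MvPolynomial (Fin (n + 1)) ℚ} (hF : F.IsHomogeneous 4)
    (hsm : Pool.Agent.Y718.SF.Smooth (FC F)) (hn : 2 ≤ n) (p : Fin (n + 1)) : RB (deh F p) := by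
  refine rb_of (Exc_finite hF hsm hn p) fun e he z hz hzT => rr_of_conn fun S hS hpos hzS => ?_
  have e1 : C e * deh F p = deh (C e * F) p := by
    unfold deh
    rw [map_mul, aeval_C]
    rfl
  have hF' : (C e * F).IsHomogeneous 4 := by
    have := (MvPolynomial.isHomogeneous_C (Fin (n + 1)) e).mul hF
    simpa using this
  have h1 : z ∈ SG2 (C e * deh F p) := by
    refine ⟨?_, hz⟩
    rw [e1] at hz ⊢
    exact (chart_cond hF' p z hz).resolve_left fun h => hzT (exc_Cmul he F p h)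
  have hdeg : ∀ i, (C e * deh F p).degreeOf i ≤ 4 := fun i => by
    rw [e1]
    exact deh_degree hF' p i
  have h2 := conn_of_open (T := SG2 (C e * deh F p)) (fun x hx hx0 => SG2_open hdeg hx hx0) hS hpos
    hzS (subset_closure ⟨z, h1, rfl⟩)
  refine h2.trans (closure_mono ?_)
  rintro _ ⟨y, hy, rfl⟩
  exact ⟨y, hy.2, rfl⟩

/-! ### One variable -/

theorem dc_zero {K : Type} [Field K] {a : Fin 5 → K} {x : Fin 2 → K} (hx : x ≠ 0) [CharZero K]
    (h : ∀ k, bd a x k = 0) : dc (a 0) (a 1) (a 2) (a 3) (a 4) = 0 := by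
  have h0 : 4 * a 0 * x 0 ^ 3 + 3 * a 1 * (x 0 ^ 2 * x 1) + 2 * a 2 * (x 0 * x 1 ^ 2) +
    a 3 * x 1 ^ 3 = 0 := h 0
  have h1 : a 1 * x 0 ^ 3 + 2 * a 2 * (x 0 ^ 2 * x 1) + 3 * a 3 * (x 0 * x 1 ^ 2) +
    4 * a 4 * x 1 ^ 3 = 0 := h 1
  by_cases hx0 : x 0 = 0
  · have hx1 : x 1 ≠ 0 := by
      intro h2
      apply hx
      funext k
      fin_cases k
      · exact hx0
      · exact h2
    have h3 : a 3 = 0 := by
      rw [hx0] at h0
      have : a 3 * x 1 ^ 3 = 0 := by linear_combination h0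
      exact (mul_eq_zero.1 this).resolve_right (pow_ne_zero _ hx1)
    have h4 : a 4 = 0 := by
      rw [hx0] at h1
      have : a 4 * (4 * x 1 ^ 3) = 0 := by linear_combination h1
      exact (mul_eq_zero.1 this).resolve_right (mul_ne_zero (by norm_num) (pow_ne_zero _ hx1))
    rw [dc, dsc, h3, h4]
    ring
  · obtain ⟨s, hs⟩ : ∃ s, x 1 = s * x 0 := ⟨x 1 / x 0, by field_simp⟩
    have h3 : a 1 = -(2 * a 2 * s + 3 * a 3 * s ^ 2 + 4 * a 4 * s ^ 3) := by
      have : (a 1 + (2 * a 2 * s + 3 * a 3 * s ^ 2 + 4 * a 4 * s ^ 3)) * x 0 ^ 3 = 0 := by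
        rw [hs] at h1
        linear_combination h1
      have := (mul_eq_zero.1 this).resolve_right (pow_ne_zero _ hx0)
      linear_combination this
    have h4 : a 0 = a 2 * s ^ 2 + 2 * a 3 * s ^ 3 + 3 * a 4 * s ^ 4 := by
      have : (a 0 - (a 2 * s ^ 2 + 2 * a 3 * s ^ 3 + 3 * a 4 * s ^ 4)) * (4 * x 0 ^ 3) = 0 := by
        rw [hs, h3] at h0
        linear_combination h0
      have := (mul_eq_zero.1 this).resolve_right (mul_ne_zero (by norm_num) (pow_ne_zero _ hx0))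
      linear_combination this
    rw [dc, dsc, h4, h3]
    ring

theorem lc_one1 {R : Type} [CommRing R] (f : MvPolynomial (Fin 1) R) (x y : Fin 1 → Fin 2 → R) :
    lc f x 0 = lc f y 0 := by
  funext k
  unfold Pool.Agent.Q35.TT.lc
  refine Finset.sum_congr rfl fun m _ => ?_
  have h : ∀ x : Fin 1 → Fin 2 → R, mo m x 0 = 1 := by
    intro x
    unfold mo
    exact Finset.prod_eq_one fun j hj => absurd (Subsingleton.elim j 0) (Finset.mem_erase.1 hj).1
  rw [h, h]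

theorem smooth_one {K : Type} [Field K] [CharZero K] {f : MvPolynomial (Fin 1) K}
    (hd : dc (lc f (af 0) 0 0) (lc f (af 0) 0 1) (lc f (af 0) 0 2) (lc f (af 0) 0 3)
      (lc f (af 0) 0 4) ≠ 0) : SmoothN f := by
  intro x hx
  by_contra hcon
  push Not at hcon
  have h1 := dc_zero (hx 0) (hcon 0)
  rw [lc_one1 _ x fun j b => algebraMap K (AlgebraicClosure K) (af (0 : Fin 1 → K) j b)] at h1
  have h2 := fun k => (Pool.Agent.Q192.TT.lc_map (algebraMap K (AlgebraicClosure K)) f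
    (af (0 : Fin 1 → K)) 0 k).symm
  rw [h2 0, h2 1, h2 2, h2 3, h2 4] at h1
  apply hd
  apply (algebraMap K (AlgebraicClosure K)).injective
  rw [map_zero, ← h1]
  simp only [dc, dsc, map_sub, map_add, map_mul, map_pow, map_ofNat]

theorem rr_of_DD {f : MvPolynomial (Fin n) ℚ} {A : Finset (Fin n)} {z : Fin n → ℚ} {i : Fin n}
    (h : DD f A z i) : RR f (A : Set (Fin n)) z := by
  intro U hU x hx
  rw [Metric.mem_closure_iff]
  intro ε hε
  obtain ⟨y, hy, -, -, hyx⟩ := h U hU x hx ε hε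
  refine ⟨_, ⟨y, hy, rfl⟩, ?_⟩
  rw [dist_comm, dist_pi_lt_iff hε]
  intro k
  rw [Real.dist_eq]
  exact hyx k

/-- **Arbitrary polynomials of degree at most four in one variable.** -/
theorem rb_one {f : MvPolynomial (Fin 1) ℚ} (hf : f.degreeOf 0 ≤ 4) : RB f := by
  have hf' : ∀ j, f.degreeOf j ≤ 4 := fun j => by rwa [Subsingleton.elim j 0]
  by_cases hd : dc (lc f (af 0) 0 0) (lc f (af 0) 0 1) (lc f (af 0) 0 2) (lc f (af 0) 0 3)
      (lc f (af 0) 0 4) = 0
  · refine rb_of Set.finite_empty fun e he z hz _ => ?_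
    have h1 : ¬ TorN (C e * f) z 0 := by
      rintro ⟨N, hN, hT⟩
      obtain ⟨w, hw, hw2⟩ := hz
      have h2 := tws2 ℚ (lc (C e * f) (af z) 0) 1 (z 0) w N one_ne_zero
      simp only [one_mul] at h2
      have h3 : w ^ 2 = bq (lc (C e * f) (af z) 0) ![1, z 0] := by
        rw [Pool.Agent.Q192.TT.bq_lc _ (Pool.Agent.Q35.TB.inv2 ℚ 1 f hf' e he).1, Function.update_eq_self, hw2]
      apply (h2.2 ⟨hw, h3, hT⟩).2.2.1
      rw [Pool.Agent.Q190.TT.lc_smul f e he, lc_one1 f (af z) (af 0)]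
      have h4 : dc (e * lc f (af 0) 0 0) (e * lc f (af 0) 0 1) (e * lc f (af 0) 0 2)
          (e * lc f (af 0) 0 3) (e * lc f (af 0) 0 4) = e ^ 6 * dc (lc f (af 0) 0 0)
          (lc f (af 0) 0 1) (lc f (af 0) 0 2) (lc f (af 0) 0 3) (lc f (af 0) 0 4) := by
        rw [dc, dc, dsc, dsc]
        ring
      show dc (e * lc f (af 0) 0 0) (e * lc f (af 0) 0 1) (e * lc f (af 0) 0 2)
          (e * lc f (af 0) 0 3) (e * lc f (af 0) 0 4) = 0
      rw [h4, hd, mul_zero]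
    have h5 := rr_of_DD (start (C e * f) (Pool.Agent.Q35.TB.inv2 ℚ 1 f hf' e he).1 hz h1)
    have h6 : (({0} : Finset (Fin 1)) : Set (Fin 1)) = Set.univ := by
      ext j
      simp [Subsingleton.elim j 0]
    rwa [h6] at h5
  · refine rb_base f hf' (smooth_one hd) ?_
    intro J hJ hJ2
    exfalso
    apply hJ2
    obtain ⟨j, hj⟩ := hJ
    ext k
    rw [Subsingleton.elim k j]
    exact ⟨fun _ => Finset.mem_univ _, fun _ => hj⟩

end

/-! ### Squares -/

theorem rb_sq {ι : Type} [Finite ι] {f : MvPolynomial ι ℚ} (g : MvPolynomial ι ℚ) (h : RB f) :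
    RB (g ^ 2 * f) := by
  have := Fintype.ofFinite ι
  obtain ⟨E, hE, h⟩ := h
  refine ⟨E, hE, ?_⟩
  intro e he z hz
  obtain ⟨w, hw, hw2⟩ := hz
  have hev : ∀ y : ι → ℚ, eval y (C e * (g ^ 2 * f)) = eval y g ^ 2 * eval y (C e * f) := by
    intro y
    simp only [map_mul, map_pow]
    ring
  rw [hev] at hw2
  have hg : eval z g ≠ 0 := by
    intro h0
    rw [h0] at hw2
    apply hw
    have : w ^ 2 = 0 := by rw [hw2]; ring
    exact pow_eq_zero_iff two_ne_zero |>.1 this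
  obtain ⟨q, hq, hq1, hR⟩ := h e he z ⟨w / eval z g, div_ne_zero hw hg, by
    rw [div_pow, hw2]
    field_simp⟩
  refine ⟨q, hq, hq1, ?_⟩
  intro U hU x hx
  have hevR : ∀ y : ι → ℝ, (aeval y (C e * (g ^ 2 * f)) : ℝ) = aeval y g ^ 2 * aeval y (C e * f) := by
    intro y
    simp only [map_mul, map_pow]
    ring
  have hposx : ∀ y, InB q.1 z U y → (0 : ℝ) < aeval y (C e * f) ∧ (aeval y g : ℝ) ≠ 0 := by
    intro y hy
    have h1 := hU.pos y hy
    rw [hevR] at h1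
    have h2 : (aeval y g : ℝ) ≠ 0 := by
      intro h0
      rw [h0] at h1
      norm_num at h1
    exact ⟨pos_of_mul_pos_right h1 (sq_nonneg _), h2⟩
  have hB : Box (C e * f) q.1 z U := ⟨hU.opn, hU.con, hU.mem, fun y hy => (hposx y hy).1⟩
  have h3 := hR U hB x hx
  have h4 : IsOpen {y : ι → ℝ | (aeval y g : ℝ) ≠ 0} :=
    isOpen_ne_fun (Pool.Agent.TH729.SQ.continuous_aeval g) continuous_const
  rw [mem_closure_iff_nhds] at h3 ⊢
  intro V hV
  obtain ⟨_, ⟨hV1, hV2⟩, y, hy, rfl⟩ := h3 (V ∩ {y : ι → ℝ | (aeval y g : ℝ) ≠ 0})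
    (Filter.inter_mem hV (h4.mem_nhds (hposx x hx).2))
  refine ⟨_, hV1, y, ?_, rfl⟩
  obtain ⟨v, hv, hv2⟩ := hy
  have h5 : eval y g ≠ 0 := by
    intro h0
    apply hV2
    show (aeval (fun k => (y k : ℝ)) g : ℝ) = 0
    rw [Pool.Agent.TH729.SQ.aeval_cast, h0]
    norm_num
  exact ⟨eval y g * v, mul_ne_zero h5 hv, by rw [hev, mul_pow, hv2]⟩

end Pool.Agent.U199.RS
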